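import Mathlib
import Pool.Agent.Helper184.QGDefs
import Pool.Agent.Helper184.QGOrtho
import Pool.Agent.Helper184.QGRegular

set_option autoImplicit false

namespace Pool.Agent.Results.MP_8306f4_co.RegularIff

open Pool.Agent.Helper184.QG

universe u

/-- A finite group admits a regular representation by a quasigroup (i.e. it is isomorphic to the
automorphism group of a quasigroup on which that automorphism group is regular) if and only if it
has a complete mapping. In particular every finite group with a complete mapping admits a
transitive representation by a quasigroup. -/
theorem result (G : Type u) [Group G] [Finite G] :
    (AdmitsRegular G ↔ HasCompleteMapping G) ∧ (HasCompleteMapping G → AdmitsTransitive G) :=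
  ⟨admitsRegular_iff, fun h => (admitsRegular_iff.mpr h).transitive⟩

end Pool.Agent.Results.MP_8306f4_co.RegularIff
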