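import Mathlib
import Pool.Agent.Helper184.QGDefs
import Pool.Agent.Helper184.QGOrtho
import Pool.Agent.Helper184.QGRegular
import Pool.Agent.Helper184.QGNeg2
import Pool.Agent.Helper184.QGSolv

set_option autoImplicit false

namespace Pool.Agent.Results.MP_8306f4_co.Solvable

open Pool.Agent.Helper184.QG

universe u

/-- Let `G` be a finite solvable group with Sylow 2-subgroup `P`. If `P` is trivial or not cyclic,
then `G` admits a regular representation by a quasigroup. If `G` has a nontrivial normal
2-subgroup, then `G` admits a transitive representation by a quasigroup if and only if `P` is not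
cyclic. -/
theorem result (G : Type u) [Group G] [Finite G] [Group.IsSolvable G] (P : Sylow 2 G) :
    ((Odd (Nat.card G) ∨ ¬ IsCyclic P) → AdmitsRegular G ∧ AdmitsTransitive G) ∧
    ((∃ T : Subgroup G, T.Normal ∧ IsPGroup 2 T ∧ T ≠ ⊥) →
      (AdmitsTransitive G ↔ ¬ IsCyclic P)) := by
  have h1 : (Odd (Nat.card G) ∨ ¬ IsCyclic P) → AdmitsRegular G := fun h =>
    admitsRegular_iff.mpr (cm_solvable P h)
  refine ⟨fun h => ⟨h1 h, (h1 h).transitive⟩, ?_⟩
  rintro ⟨T, hT, hT2, hTb⟩
  refine ⟨fun h hP => not_admitsTransitive P hP T hT2 hTb h, fun h => (h1 (Or.inr h)).transitive⟩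

end Pool.Agent.Results.MP_8306f4_co.Solvable
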