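import Mathlib

set_option autoImplicit false

namespace Pool.Agent.Results.MP_8306f4_co.TwoNilpotent

universe u

/-- `op` is a quasigroup operation. -/
def IsQuasigroup {Q : Type u} (op : Q → Q → Q) : Prop :=
  (∀ a b : Q, ∃! x : Q, op a x = b) ∧ (∀ a b : Q, ∃! y : Q, op y a = b)

/-- The group of all automorphisms of `op`. -/
def AutQ {Q : Type u} (op : Q → Q → Q) : Subgroup (Equiv.Perm Q) where
  carrier := {φ | ∀ x y, φ (op x y) = op (φ x) (φ y)}
  mul_mem' := by
    intro a b ha hb x y
    simp only [Set.mem_ofPred_eq] at ha hb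
    simp [Equiv.Perm.mul_apply, ha, hb]
  one_mem' := by
    intro x y
    simp
  inv_mem' := by
    intro a ha x y
    simp only [Set.mem_ofPred_eq] at ha
    rw [Equiv.Perm.inv_eq_iff_eq, ha]
    simp

/-- `G` admits a transitive representation by a quasigroup. -/
def AdmitsTransitive (G : Type u) [Group G] : Prop :=
  ∃ (Q : Type u) (op : Q → Q → Q), Nonempty Q ∧ IsQuasigroup op ∧ Nonempty (G ≃* AutQ op) ∧
    ∀ x y : Q, ∃ φ ∈ AutQ op, φ x = y

/-- `G` admits a regular representation by a quasigroup. -/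
def AdmitsRegular (G : Type u) [Group G] : Prop :=
  ∃ (Q : Type u) (op : Q → Q → Q), Nonempty Q ∧ IsQuasigroup op ∧ Nonempty (G ≃* AutQ op) ∧
    (∀ x y : Q, ∃ φ ∈ AutQ op, φ x = y) ∧ ∀ φ ∈ AutQ op, ∀ x : Q, φ x = x → φ = 1

/-- good orthomorphisms -/
def Good (G : Type u) [Group G] (f : G → G) : Prop :=
  Function.Bijective f ∧ Function.Bijective (fun x => x⁻¹ * f x) ∧
    ∀ H : Subgroup G, (∀ h ∈ H, f h ∈ H) → H = ⊤

def IsGood (G : Type u) [Group G] : Prop := ∃ f : G → G, Good G f

/-- A subset closed under `x * f (x⁻¹ y)` containing `1` is everything. -/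
theorem closed_univ {G : Type u} [Group G] [Finite G] {f : G → G}
    (hf : ∀ H : Subgroup G, (∀ h ∈ H, f h ∈ H) → H = ⊤) (M : Set G) (h1 : (1 : G) ∈ M)
    (hM : ∀ x ∈ M, ∀ y ∈ M, x * f (x⁻¹ * y) ∈ M) (g : G) : g ∈ M := by
  classical
  set S : Set G := {x | ∀ M : Set G, (1 : G) ∈ M → (∀ x ∈ M, ∀ y ∈ M, x * f (x⁻¹ * y) ∈ M) → x ∈ M}
    with hS
  have S1 : (1 : G) ∈ S := fun M h1 _ => h1
  have Sop : ∀ x ∈ S, ∀ y ∈ S, x * f (x⁻¹ * y) ∈ S := by
    intro x hx y hy M h1 hM
    exact hM x (hx M h1 hM) y (hy M h1 hM)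
  have Smul : ∀ x ∈ S, ∀ y ∈ S, x * y ∈ S := by
    intro x hx y hy
    refine hy {z | x * z ∈ S} (by simpa using hx) ?_
    intro a ha b hb
    have := Sop (x * a) ha (x * b) hb
    simp only [Set.mem_ofPred_eq]
    have e : (x * a)⁻¹ * (x * b) = a⁻¹ * b := by group
    rw [e] at this
    rwa [← mul_assoc]
  have Sinv : ∀ x ∈ S, x⁻¹ ∈ S := by
    intro x hx
    have hpow : ∀ n : ℕ, x ^ n ∈ S := by
      intro n
      induction n with
      | zero => simpa using S1
      | succ n ih => rw [pow_succ]; exact Smul _ ih _ hx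
    have hpos : 0 < orderOf x := orderOf_pos x
    have : x⁻¹ = x ^ (orderOf x - 1) := by
      rw [inv_eq_iff_mul_eq_one, ← pow_succ', Nat.sub_add_cancel hpos, pow_orderOf_eq_one]
    rw [this]
    exact hpow _
  let H : Subgroup G :=
    { carrier := S
      mul_mem' := fun {a b} ha hb => Smul a ha b hb
      one_mem' := S1
      inv_mem' := fun {a} ha => Sinv a ha }
  have hH : H = ⊤ := by
    apply hf
    intro h hh
    have := Sop 1 S1 h hh
    change f h ∈ S
    simpa using this
  have hg : g ∈ H := by rw [hH]; trivial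
  exact hg M h1 hM

theorem good_admits {G : Type u} [Group G] [Finite G] (h : IsGood G) : AdmitsRegular G := by
  obtain ⟨f, hf, hg, hH⟩ := h
  let op : G → G → G := fun x y => x * f (x⁻¹ * y)
  have hleft : ∀ g : G, Equiv.mulLeft g ∈ AutQ op := by
    intro g x y
    simp only [Equiv.coe_mulLeft, op]
    have e : (g * x)⁻¹ * (g * y) = x⁻¹ * y := by group
    rw [e, mul_assoc]
  have hall : ∀ φ ∈ AutQ op, φ = Equiv.mulLeft (φ 1) := by
    intro φ hφ
    have hφ' : ∀ x y, φ (op x y) = op (φ x) (φ y) := hφ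
    ext g
    have := closed_univ hH {x | φ x = φ 1 * x} (by simp) (by
      intro x hx y hy
      simp only [Set.mem_ofPred_eq] at hx hy ⊢
      have h1 := hφ' x y
      simp only [op] at h1
      rw [h1, hx, hy]
      have e : (φ 1 * x)⁻¹ * (φ 1 * y) = x⁻¹ * y := by group
      rw [e, mul_assoc]) g
    simpa using this
  refine ⟨G, op, ⟨1⟩, ⟨?_, ?_⟩, ⟨?_⟩, ?_, ?_⟩
  · intro a b
    obtain ⟨z, hz, hz'⟩ := hf.existsUnique (a⁻¹ * b)
    refine ⟨a * z, ?_, ?_⟩
    · simp only [op]
      rw [inv_mul_cancel_left, hz, mul_inv_cancel_left]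
    · intro y hy
      simp only [op] at hy
      have : a⁻¹ * y = z := by
        apply hz'
        show f (a⁻¹ * y) = a⁻¹ * b
        rw [← hy, inv_mul_cancel_left]
      rw [← this, mul_inv_cancel_left]
  · intro a b
    obtain ⟨z, hz, hz'⟩ := hg.existsUnique (a⁻¹ * b)
    simp only at hz hz'
    refine ⟨a * z⁻¹, ?_, ?_⟩
    · simp only [op]
      have e : (a * z⁻¹)⁻¹ * a = z := by group
      rw [e, mul_assoc, hz, mul_inv_cancel_left]
    · intro y hy
      simp only [op] at hy
      have : y⁻¹ * a = z := by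
        apply hz'
        show (y⁻¹ * a)⁻¹ * f (y⁻¹ * a) = a⁻¹ * b
        rw [← hy]
        group
      rw [← this]
      group
  · refine MulEquiv.ofBijective
      ({ toFun := fun g => ⟨Equiv.mulLeft g, hleft g⟩
         map_one' := by ext x; simp
         map_mul' := by intro a b; ext x; simp } : G →* AutQ op) ⟨?_, ?_⟩
    · intro a b hab
      have := congrArg (fun φ : AutQ op => (φ : Equiv.Perm G) 1) hab
      simpa using this
    · intro φ
      refine ⟨(φ : Equiv.Perm G) 1, ?_⟩
      apply Subtype.ext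
      exact (hall φ.1 φ.2).symm
  · intro x y
    refine ⟨Equiv.mulLeft (y * x⁻¹), hleft _, by simp⟩
  · intro φ hφ x hx
    rw [hall φ hφ] at hx ⊢
    simp only [Equiv.coe_mulLeft] at hx
    have : φ 1 = 1 := by simpa using hx
    rw [this]
    ext y
    simp

theorem IsGood.congr {G H : Type u} [Group G] [Group H] (e : G ≃* H) (h : IsGood G) : IsGood H := by
  obtain ⟨f, hf, hg, hH⟩ := h
  refine ⟨fun x => e (f (e.symm x)), ?_, ?_, ?_⟩
  · exact e.bijective.comp (hf.comp e.symm.bijective)
  · have : (fun x : H => x⁻¹ * e (f (e.symm x))) = e ∘ (fun x => x⁻¹ * f x) ∘ e.symm := by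
      ext x
      simp
    rw [this]
    exact e.bijective.comp (hg.comp e.symm.bijective)
  · intro K hK
    have := hH (K.comap e.toMonoidHom) (by
      intro h hh
      rw [Subgroup.mem_comap] at hh ⊢
      have := hK _ hh
      simpa using this)
    rw [eq_top_iff]
    intro x _
    have hx : e.symm x ∈ K.comap e.toMonoidHom := by rw [this]; trivial
    simpa using hx

section Extension

variable {G : Type u} [Group G] (N : Subgroup G)

/-- the section -/
noncomputable def sec (u : G ⧸ N) : G := Quotient.out u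

theorem sec_mk (u : G ⧸ N) : ((sec N u : G) : G ⧸ N) = u := Quotient.out_eq u

theorem mem_of_mk {x y : G} (h : (x : G ⧸ N) = (y : G ⧸ N)) : x⁻¹ * y ∈ N := by
  rwa [QuotientGroup.eq] at h

variable [N.Normal]

theorem mpart_mem (fb : G ⧸ N → G ⧸ N) (x : G) :
    (sec N (fb (x : G ⧸ N)))⁻¹ * x * (sec N (x : G ⧸ N))⁻¹ * sec N (fb (x : G ⧸ N)) ∈ N := by
  rw [← QuotientGroup.eq_one_iff]
  simp only [QuotientGroup.mk_mul, QuotientGroup.mk_inv, sec_mk]
  group

/-- the `N`-part of `x`, in the frame of the image coset -/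
noncomputable def mpart (fb : G ⧸ N → G ⧸ N) (x : G) : N :=
  ⟨_, mpart_mem N fb x⟩

/-- the lift of `fb` -/
noncomputable def lift (fb : G ⧸ N → G ⧸ N) (θ : N → N) (t : G ⧸ N → N) (x : G) : G :=
  sec N (fb (x : G ⧸ N)) * (θ (mpart N fb x) : G) * (t (x : G ⧸ N) : G)

theorem mk_lift (fb : G ⧸ N → G ⧸ N) (θ : N → N) (t : G ⧸ N → N) (x : G) :
    ((lift N fb θ t x : G) : G ⧸ N) = fb (x : G ⧸ N) := by
  unfold lift
  simp only [QuotientGroup.mk_mul, sec_mk]
  rw [(QuotientGroup.eq_one_iff _).2 (θ (mpart N fb x)).2,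
    (QuotientGroup.eq_one_iff _).2 (t (x : G ⧸ N)).2]
  simp

theorem mpart_inj (fb : G ⧸ N → G ⧸ N) {x y : G} (h : (x : G ⧸ N) = (y : G ⧸ N))
    (hm : mpart N fb x = mpart N fb y) : x = y := by
  have := congrArg (fun n : N => (n : G)) hm
  simp only [mpart, h] at this
  simpa using this

theorem lift_inj {fb : G ⧸ N → G ⧸ N} (hfb : Function.Injective fb) {θ : N → N}
    (hθ : Function.Injective θ) (t : G ⧸ N → N) : Function.Injective (lift N fb θ t) := by
  intro x y hxy
  have h1 : (x : G ⧸ N) = (y : G ⧸ N) := by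
    apply hfb
    rw [← mk_lift N fb θ t, ← mk_lift N fb θ t, hxy]
  apply mpart_inj N fb h1
  apply hθ
  apply Subtype.ext
  simp only [lift, h1] at hxy
  simpa using hxy

theorem inv_mul_lift (fb : G ⧸ N → G ⧸ N) (θ : N → N) (t : G ⧸ N → N) (x : G) :
    x⁻¹ * lift N fb θ t x = (sec N (x : G ⧸ N))⁻¹ * sec N (fb (x : G ⧸ N)) *
      (((mpart N fb x)⁻¹ * θ (mpart N fb x) : N) : G) * (t (x : G ⧸ N) : G) := by
  simp only [lift, Subgroup.coe_mul, Subgroup.coe_inv]
  have : ((mpart N fb x : N) : G) =
    (sec N (fb (x : G ⧸ N)))⁻¹ * x * (sec N (x : G ⧸ N))⁻¹ * sec N (fb (x : G ⧸ N)) := rfl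
  rw [this]
  group

theorem inv_mul_lift_inj {fb : G ⧸ N → G ⧸ N}
    (hfb : Function.Injective (fun u => u⁻¹ * fb u)) {θ : N → N}
    (hθ : Function.Injective (fun n : N => n⁻¹ * θ n)) (t : G ⧸ N → N) :
    Function.Injective (fun x => x⁻¹ * lift N fb θ t x) := by
  intro x y hxy
  simp only at hxy
  have h1 : (x : G ⧸ N) = (y : G ⧸ N) := by
    apply hfb
    simp only
    rw [← mk_lift N fb θ t, ← mk_lift N fb θ t, ← QuotientGroup.mk_inv, ← QuotientGroup.mk_inv,
      ← QuotientGroup.mk_mul, ← QuotientGroup.mk_mul, hxy]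
  apply mpart_inj N fb h1
  apply hθ
  simp only
  apply Subtype.ext
  rw [inv_mul_lift, inv_mul_lift, h1] at hxy
  simpa using hxy

theorem mpart_mul (fb : G ⧸ N → G ⧸ N) (x : G) (l : N) :
    ((mpart N fb (x * l) : N) : G) = (mpart N fb x : G) *
      (((sec N (x : G ⧸ N))⁻¹ * sec N (fb (x : G ⧸ N)))⁻¹ * (l : G) *
        ((sec N (x : G ⧸ N))⁻¹ * sec N (fb (x : G ⧸ N)))) := by
  have h1 : ((x * l : G) : G ⧸ N) = (x : G ⧸ N) := by
    rw [QuotientGroup.mk_mul, (QuotientGroup.eq_one_iff _).2 l.2, mul_one]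
  simp only [mpart, h1]
  group

/-- The extension theorem. -/
theorem good_extension [Finite G] (hcomm : ∀ a b : N, a * b = b * a) (hN : N ≠ ⊥)
    (θ : N →* N) (hθ : Function.Injective θ) (hθ' : Function.Injective (fun n : N => n⁻¹ * θ n))
    (hirr : ∀ L : Subgroup G, L ≤ N → L.Normal → (∀ l : N, (l : G) ∈ L → (θ l : G) ∈ L) →
      L = ⊥ ∨ L = N) (hgood : IsGood (G ⧸ N)) : IsGood G := by
  classical
  obtain ⟨fb, hfb, hgb, hHb⟩ := hgood
  by_contra hno
  have key : ∀ t : G ⧸ N → N, ∃ H : Subgroup G, (∀ h ∈ H, lift N fb θ t h ∈ H) ∧ H ≠ ⊤ := by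
    intro t
    by_contra hcon
    push Not at hcon
    exact hno ⟨lift N fb θ t, (Finite.injective_iff_bijective).1 (lift_inj N hfb.1 hθ t),
      (Finite.injective_iff_bijective).1 (inv_mul_lift_inj N hgb.1 hθ' t), hcon⟩
  choose H hHf hHt using key
  -- every coset meets H
  have hmeet : ∀ t, ∀ u : G ⧸ N, ∃ h ∈ H t, (h : G ⧸ N) = u := by
    intro t u
    have := hHb ((H t).map (QuotientGroup.mk' N)) (by
      intro v hv
      obtain ⟨h, hh, rfl⟩ := hv
      refine ⟨lift N fb θ t h, hHf t h hh, ?_⟩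
      exact mk_lift N fb θ t h)
    have hu : u ∈ (H t).map (QuotientGroup.mk' N) := by rw [this]; trivial
    obtain ⟨h, hh, hu⟩ := hu
    exact ⟨h, hh, hu⟩
  choose a haH hau using hmeet
  -- the intersection is trivial
  have htriv : ∀ t, H t ⊓ N = ⊥ := by
    intro t
    have hcommG : ∀ x ∈ N, ∀ y ∈ N, x * y = y * x := by
      intro x hx y hy
      have := congrArg (fun n : N => (n : G)) (hcomm ⟨x, hx⟩ ⟨y, hy⟩)
      simpa using this
    have hnormal : (H t ⊓ N).Normal := by
      constructor
      intro l hl g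
      obtain ⟨hl1, hl2⟩ := hl
      -- g = h * n
      obtain ⟨h, hh, hgh⟩ : ∃ h ∈ H t, (h : G ⧸ N) = (g : G ⧸ N) := ⟨a t g, haH t g, hau t g⟩
      have hn : h⁻¹ * g ∈ N := mem_of_mk N hgh
      have e : g * l * g⁻¹ = h * l * h⁻¹ := by
        have hc := hcommG _ hn _ hl2
        have : g = h * (h⁻¹ * g) := by group
        calc g * l * g⁻¹ = (h * (h⁻¹ * g)) * l * g⁻¹ := by rw [← this]
          _ = h * ((h⁻¹ * g) * l) * g⁻¹ := by group
          _ = h * (l * (h⁻¹ * g)) * g⁻¹ := by rw [hc]
          _ = h * l * h⁻¹ := by group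
      refine ⟨?_, Subgroup.Normal.conj_mem inferInstance _ hl2 _⟩
      rw [e]
      exact (H t).mul_mem ((H t).mul_mem hh hl1) ((H t).inv_mem hh)
    have hinv : ∀ l : N, (l : G) ∈ H t ⊓ N → (θ l : G) ∈ H t ⊓ N := by
      intro l hl
      refine ⟨?_, (θ l).2⟩
      -- use h = 1
      set w : G := (sec N ((1 : G) : G ⧸ N))⁻¹ * sec N (fb ((1 : G) : G ⧸ N)) with hw
      have hl' : w * l * w⁻¹ ∈ H t ⊓ N := hnormal.conj_mem _ hl _
      set l' : N := ⟨w * l * w⁻¹, hl'.2⟩ with hl'def
      have h1 := hHf t 1 (H t).one_mem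
      have h2 := hHf t (1 * (l' : G)) ((H t).mul_mem (H t).one_mem hl'.1)
      have hq : (((1 : G) * (l' : G) : G) : G ⧸ N) = ((1 : G) : G ⧸ N) := by
        rw [QuotientGroup.mk_mul, (QuotientGroup.eq_one_iff _).2 l'.2, mul_one]
      have hm : mpart N fb (1 * (l' : G)) = mpart N fb 1 * l := by
        apply Subtype.ext
        rw [mpart_mul, Subgroup.coe_mul]
        congr 1
        rw [← hw, hl'def]
        group
      have e : (lift N fb θ t 1)⁻¹ * lift N fb θ t (1 * (l' : G)) = (θ l : G) := by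
        simp only [lift]
        rw [hq, hm, map_mul]
        have hc := hcommG _ (θ l).2 _ (t ((1 : G) : G ⧸ N)).2
        rw [Subgroup.coe_mul]
        calc _ = ((t ((1 : G) : G ⧸ N) : N) : G)⁻¹ * ((θ l : G) * ((t ((1 : G) : G ⧸ N) : N) : G)) := by
              group
          _ = _ := by rw [hc]; group
      rw [← e]
      exact (H t).mul_mem ((H t).inv_mem h1) h2
    rcases hirr _ inf_le_right hnormal hinv with h | h
    · exact h
    · exfalso
      apply hHt t
      rw [eq_top_iff]
      intro g _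
      have hNH : N ≤ H t := by
        rw [← h]; exact inf_le_left
      have hn : (a t g)⁻¹ * g ∈ N := mem_of_mk N (hau t g)
      have : g = a t g * ((a t g)⁻¹ * g) := by group
      rw [this]
      exact (H t).mul_mem (haH t _) (hNH hn)
  -- uniqueness of representatives
  have huniq : ∀ t, ∀ h ∈ H t, ∀ h' ∈ H t, (h : G ⧸ N) = (h' : G ⧸ N) → h = h' := by
    intro t h hh h' hh' e
    have h1 : h⁻¹ * h' ∈ H t ⊓ N := ⟨(H t).mul_mem ((H t).inv_mem hh) hh', mem_of_mk N e⟩
    rw [htriv t, Subgroup.mem_bot] at h1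
    rw [inv_mul_eq_one] at h1
    exact h1
  -- the counting map
  let Φ : (G ⧸ N → N) → (G ⧸ N → N) := fun t u =>
    ⟨(sec N u)⁻¹ * a t u, mem_of_mk N (by rw [sec_mk, hau])⟩
  have hΦ : Function.Injective Φ := by
    intro t t' he
    have ha : ∀ u, a t u = a t' u := by
      intro u
      have := congrArg (fun g : G ⧸ N → N => (g u : G)) he
      simpa [Φ] using this
    funext u
    have h1 : lift N fb θ t (a t u) = a t (fb u) :=
      huniq t _ (hHf t _ (haH t u)) _ (haH t _) (by rw [mk_lift, hau, hau])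
    have h2 : lift N fb θ t' (a t' u) = a t' (fb u) :=
      huniq t' _ (hHf t' _ (haH t' u)) _ (haH t' _) (by rw [mk_lift, hau, hau])
    rw [← ha u, ← ha (fb u), ← h1] at h2
    simp only [lift, hau] at h2
    apply Subtype.ext
    have := mul_left_cancel h2
    exact this.symm
  have hΦs : Function.Surjective Φ := Finite.surjective_of_injective hΦ
  obtain ⟨n, hn, hn1⟩ : ∃ n ∈ N, n ≠ (1 : G) := by
    by_contra hcon
    push Not at hcon
    apply hN
    rw [eq_bot_iff]
    intro x hx
    exact hcon x hx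
  have hone : ∀ t, a t ((1 : G) : G ⧸ N) = 1 := by
    intro t
    exact huniq t _ (haH t _) _ (H t).one_mem (hau t _)
  have hval : ∀ t, ((Φ t ((1 : G) : G ⧸ N) : N) : G) = (sec N ((1 : G) : G ⧸ N))⁻¹ := by
    intro t
    have := hone t
    simp only [Φ, this, mul_one]
  obtain ⟨t1, ht1⟩ := hΦs (fun _ => 1)
  obtain ⟨t2, ht2⟩ := hΦs (fun _ => ⟨n, hn⟩)
  have h1 := hval t1
  have h2 := hval t2
  rw [ht1] at h1
  rw [ht2] at h2
  simp only [Subgroup.coe_one] at h1 h2
  exact hn1 (by rw [h2, ← h1])

end Extension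

section Odd

/-- Squaring, as an endomorphism of a commutative subgroup. -/
def sqHom {G : Type u} [Group G] (N : Subgroup G) (hcomm : ∀ a b : N, a * b = b * a) : N →* N where
  toFun n := n * n
  map_one' := by simp
  map_mul' := by
    intro a b
    calc a * b * (a * b) = a * (b * a) * b := by group
      _ = a * (a * b) * b := by rw [hcomm b a]
      _ = a * a * (b * b) := by group


end Odd

section Elementary

theorem good_of_subsingleton (G : Type u) [Group G] [Subsingleton G] : IsGood G := by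
  refine ⟨id, Function.bijective_id, ?_, ?_⟩
  · constructor
    · intro a b _
      exact Subsingleton.elim _ _
    · intro b
      exact ⟨b, Subsingleton.elim _ _⟩
  · intro H _
    exact Subsingleton.elim _ _

/-- The additive group of a finite field with at least three elements is good. -/
theorem field_good (F : Type u) [Field F] [Finite F] (hF : 3 ≤ Nat.card F) :
    IsGood (Multiplicative F) := by
  classical
  have : Fintype F := Fintype.ofFinite F
  obtain ⟨w, hw⟩ := IsCyclic.exists_generator (α := Fˣ)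
  have hw1 : (w : F) ≠ 1 := by
    intro h
    have h1 : w = 1 := Units.ext h
    subst h1
    have hsub : ∀ a : Fˣ, a = 1 := by
      intro a
      have := hw a
      simpa using this
    have hcard : Nat.card F ≤ 2 := by
      have : (Finset.univ : Finset F) ⊆ {0, 1} := by
        intro x _
        by_cases hx : x = 0
        · simp [hx]
        · have := congrArg Units.val (hsub (Units.mk0 x hx))
          simp only [Units.val_mk0, Units.val_one] at this
          simp [this]
      have := Finset.card_le_card this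
      rw [Finset.card_univ] at this
      rw [Nat.card_eq_fintype_card]
      exact this.trans Finset.card_le_two
    omega
  have hw0 : (w : F) ≠ 0 := w.ne_zero
  have hinj1 : Function.Injective (fun x : Multiplicative F =>
      Multiplicative.ofAdd ((w : F) * x.toAdd + 1)) := by
    intro a b hab
    have h1 := congrArg Multiplicative.toAdd hab
    simp only [toAdd_ofAdd, add_left_inj, mul_eq_mul_left_iff, hw0, or_false] at h1
    exact Multiplicative.toAdd.injective h1
  have hinj2 : Function.Injective (fun x : Multiplicative F =>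
      x⁻¹ * Multiplicative.ofAdd ((w : F) * x.toAdd + 1)) := by
    intro a b hab
    have h1 := congrArg Multiplicative.toAdd hab
    simp only [toAdd_mul, toAdd_inv, toAdd_ofAdd] at h1
    have h2 : ((w : F) - 1) * (a.toAdd - b.toAdd) = 0 := by linear_combination h1
    rcases mul_eq_zero.1 h2 with h | h
    · exact absurd (sub_eq_zero.1 h) hw1
    · exact Multiplicative.toAdd.injective (sub_eq_zero.1 h)
  refine ⟨_, (Finite.injective_iff_bijective).1 hinj1, (Finite.injective_iff_bijective).1 hinj2, ?_⟩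
  intro H hH
  have h1 : Multiplicative.ofAdd (1 : F) ∈ H := by
    have := hH 1 H.one_mem
    simpa using this
  have hstep : ∀ x : F, Multiplicative.ofAdd x ∈ H → Multiplicative.ofAdd ((w : F) * x) ∈ H := by
    intro x hx
    have := H.mul_mem (hH _ hx) (H.inv_mem h1)
    rw [← ofAdd_neg, ← ofAdd_add] at this
    simpa using this
  have hpow : ∀ n : ℕ, Multiplicative.ofAdd ((w : F) ^ n) ∈ H := by
    intro n
    induction n with
    | zero => simpa using h1
    | succ n ih => rw [pow_succ']; exact hstep _ ih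
  rw [eq_top_iff]
  intro x _
  by_cases hx : x.toAdd = 0
  · have : x = 1 := hx
    rw [this]
    exact H.one_mem
  · have h2 := hw (Units.mk0 x.toAdd hx)
    rw [← mem_powers_iff_mem_zpowers] at h2
    obtain ⟨n, hn⟩ := h2
    have h3 := hpow n
    have h4 : (w : F) ^ n = x.toAdd := by
      have := congrArg Units.val hn
      simpa using this
    rw [h4] at h3
    exact h3

theorem elementary_good (E : Type u) [Group E] [Finite E] (h2 : ∀ x : E, x * x = 1)
    (hc : 3 ≤ Nat.card E) : IsGood E := by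
  classical
  have hinv : ∀ x : E, x⁻¹ = x := fun x => (eq_inv_of_mul_eq_one_left (h2 x)).symm
  have hcomm : ∀ a b : E, a * b = b * a := by
    intro a b
    have := hinv (a * b)
    rw [mul_inv_rev, hinv, hinv] at this
    exact this.symm
  let _ : CommGroup E := { (inferInstance : Group E) with mul_comm := hcomm }
  let _ : Module (ZMod 2) (Additive E) := AddCommGroup.zmodModule (by
    intro x
    rw [two_nsmul]
    exact h2 x.toMul)
  have : Finite (Additive E) := inferInstanceAs (Finite E)
  have : Module.Finite (ZMod 2) (Additive E) := Module.Finite.of_finite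
  set d := Module.finrank (ZMod 2) (Additive E) with hd
  have hcard : Nat.card (Additive E) = 2 ^ d := by
    have := Module.natCard_eq_pow_finrank (K := ZMod 2) (V := Additive E)
    rw [this]
    simp [hd]
  have hcard' : Nat.card E = 2 ^ d := hcard
  have hd0 : d ≠ 0 := by
    intro h
    rw [h] at hcard'
    omega
  have hfr : Module.finrank (ZMod 2) (Additive E) = Module.finrank (ZMod 2) (GaloisField 2 d) := by
    rw [GaloisField.finrank 2 hd0]
  have : Finite (GaloisField 2 d) := Nat.finite_of_card_ne_zero (by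
    rw [GaloisField.card 2 d hd0]
    positivity)
  let e : Additive E ≃ₗ[ZMod 2] GaloisField 2 d := LinearEquiv.ofFinrankEq _ _ hfr
  let e' : Multiplicative (GaloisField 2 d) ≃* E :=
    { toFun := fun x => (e.symm x.toAdd).toMul
      invFun := fun y => Multiplicative.ofAdd (e (Additive.ofMul y))
      left_inv := by intro x; simp
      right_inv := by intro x; simp
      map_mul' := by intro x y; simp }
  have h3 : IsGood (Multiplicative (GaloisField 2 d)) := by
    apply field_good
    rw [GaloisField.card 2 d hd0, ← hcard']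
    exact hc
  obtain ⟨f, hf, hg, hH⟩ := h3
  refine ⟨fun x => e' (f (e'.symm x)), ?_, ?_, ?_⟩
  · exact e'.bijective.comp (hf.comp e'.symm.bijective)
  · have : (fun x : E => x⁻¹ * e' (f (e'.symm x))) = e' ∘ (fun x => x⁻¹ * f x) ∘ e'.symm := by
      ext x
      simp
    rw [this]
    exact e'.bijective.comp (hg.comp e'.symm.bijective)
  · intro K hK
    have := hH (K.comap e'.toMonoidHom) (by
      intro h hh
      rw [Subgroup.mem_comap] at hh ⊢
      have := hK _ hh
      simpa using this)
    rw [eq_top_iff]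
    intro x _
    have hx : e'.symm x ∈ K.comap e'.toMonoidHom := by rw [this]; trivial
    simpa using hx

end Elementary


section CaseA

theorem zmod_key (m : ℕ) (hm : 0 < m) (a b : ZMod (2 * m)) (h : 2 * a = 2 * b)
    (hab : a.val < m ↔ b.val < m) : a = b := by
  have : NeZero (2 * m) := ⟨by omega⟩
  have ha := a.val_lt
  have hb := b.val_lt
  have h1 : ((2 * a.val : ℕ) : ZMod (2 * m)) = ((2 * b.val : ℕ) : ZMod (2 * m)) := by
    push_cast
    rw [ZMod.natCast_zmod_val, ZMod.natCast_zmod_val]
    exact h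
  rw [ZMod.natCast_eq_natCast_iff, Nat.ModEq, Nat.mul_mod_mul_left, Nat.mul_mod_mul_left] at h1
  have h2 : a.val % m = b.val % m := by omega
  apply ZMod.val_injective
  by_cases hlt : a.val < m
  · have hlt' := hab.1 hlt
    rwa [Nat.mod_eq_of_lt hlt, Nat.mod_eq_of_lt hlt'] at h2
  · have hlt' : ¬ b.val < m := fun h => hlt (hab.2 h)
    push Not at hlt hlt'
    rw [Nat.mod_eq_sub_mod hlt, Nat.mod_eq_sub_mod hlt', Nat.mod_eq_of_lt (by omega),
      Nat.mod_eq_of_lt (by omega)] at h2
    omega

/-- the combinatorial orthomorphism -/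
def combF (m : ℕ) (e : ZMod (2 * m)) (z : ZMod (2 * m) × Bool) : ZMod (2 * m) × Bool :=
  if z.2 then (if z.1.val < m then (2 * z.1 + 1, false) else (2 * z.1, true))
  else (if z.1.val < m then (2 * z.1, false) else (2 * z.1 + 1 - e, true))

def combD (m : ℕ) (s e : ZMod (2 * m)) (z : ZMod (2 * m) × Bool) : ZMod (2 * m) × Bool :=
  if z.2 then (if z.1.val < m then ((2 - s) * z.1 + 1 - e, true) else (z.1, false))
  else (if z.1.val < m then (z.1, false) else ((2 - s) * z.1 + 1 - e, true))

theorem zmod_parity (m : ℕ) (a : ZMod (2 * m)) : 2 * a + 1 ≠ 0 := by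
  intro h
  have h1 := congrArg (ZMod.castHom (Dvd.intro m rfl : 2 ∣ 2 * m) (ZMod 2)) h
  rw [map_add, map_mul, map_one, map_zero, map_ofNat] at h1
  have h2 : (2 : ZMod 2) = 0 := by decide
  rw [h2, zero_mul, zero_add] at h1
  exact one_ne_zero h1

theorem combF_inj (m : ℕ) (hm : 0 < m) (e e' : ZMod (2 * m)) (he : e = 2 * e') :
    Function.Injective (combF m e) := by
  rintro ⟨a, b⟩ ⟨a', b'⟩ h
  cases b <;> cases b' <;> by_cases h1 : a.val < m <;> by_cases h2 : a'.val < m <;>
    simp only [combF, h1, h2, Prod.mk.injEq, and_true, and_false,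
      Bool.true_eq_false, Bool.false_eq_true, ↓reduceIte] at h ⊢
  · exact zmod_key m hm a a' h (by simp [h1, h2])
  · refine zmod_key m hm a a' ?_ (by simp [h1, h2])
    linear_combination h
  · exact zmod_parity m (a' - a) (by linear_combination -h)
  · exact zmod_parity m (a - a' - e') (by linear_combination h + he)
  · exact zmod_parity m (a - a') (by linear_combination h)
  · exact zmod_parity m (a' - a - e') (by linear_combination -h + he)
  · refine zmod_key m hm a a' ?_ (by simp [h1, h2])
    linear_combination h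
  · exact zmod_key m hm a a' h (by simp [h1, h2])

theorem combD_inj (m : ℕ) (s e : ZMod (2 * m)) (hs : IsUnit (2 - s)) :
    Function.Injective (combD m s e) := by
  have key : ∀ a a' : ZMod (2 * m), (2 - s) * a + 1 - e = (2 - s) * a' + 1 - e → a = a' := by
    intro a a' h
    apply hs.mul_left_cancel
    linear_combination h
  rintro ⟨a, b⟩ ⟨a', b'⟩ h
  cases b <;> cases b' <;> by_cases h1 : a.val < m <;> by_cases h2 : a'.val < m <;>
    simp only [combD, h1, h2, Prod.mk.injEq, and_true, and_false,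
      Bool.true_eq_false, Bool.false_eq_true, ↓reduceIte] at h ⊢
  · exact h
  · exact key _ _ h
  · exact h2 (h ▸ h1)
  · have := key _ _ h
    exact h1 (this ▸ h2)
  · have := key _ _ h
    exact h2 (this ▸ h1)
  · exact h1 (h ▸ h2)
  · exact key _ _ h
  · exact h

theorem caseA_good {P : Type u} [Group P] [Finite P] (a : ℕ) (c y : P)
    (hc : orderOf c = 2 ^ (a + 1)) (hy : y ∉ Subgroup.zpowers c)
    (hP : ∀ g : P, g ∈ Subgroup.zpowers c ∨ y⁻¹ * g ∈ Subgroup.zpowers c)
    (s e : ℤ) (hs : y⁻¹ * c * y = c ^ s) (hodd : Odd s) (he : y * y = c ^ e) (heven : Even e) :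
    IsGood P := by
  classical
  set m : ℕ := 2 ^ a with hm
  have hm0 : 0 < m := by positivity
  have hc' : orderOf c = 2 * m := by rw [hc, hm]; ring
  have : NeZero (2 * m) := ⟨by omega⟩
  -- the exponent map
  let q0 : ℤ →+ Additive P := (zpowersHom P c).toAdditiveRight
  have hq0 : ∀ k : ℤ, q0 k = Additive.ofMul (c ^ k) := by
    intro k
    rfl
  let p : ZMod (2 * m) →+ Additive P := ZMod.lift (2 * m) ⟨q0, by
    rw [hq0]
    have : c ^ (((2 * m : ℕ) : ℤ)) = 1 := by
      rw [zpow_natCast, ← hc', pow_orderOf_eq_one]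
    rw [this]
    rfl⟩
  let q : ZMod (2 * m) → P := fun x => (p x).toMul
  have q_int : ∀ k : ℤ, q (k : ZMod (2 * m)) = c ^ k := by
    intro k
    simp only [q, p]
    rw [ZMod.lift_coe]
    rfl
  have q_add : ∀ x z, q (x + z) = q x * q z := by
    intro x z
    simp only [q, map_add]
    rfl
  have q_neg : ∀ x, q (-x) = (q x)⁻¹ := by
    intro x
    simp only [q, map_neg]
    rfl
  have q_zero : q 0 = 1 := by
    simp only [q, map_zero]
    rfl
  have q_inj : Function.Injective q := by
    have : Function.Injective p := by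
      rw [ZMod.lift_injective]
      intro k hk
      simp only [hq0] at hk
      have hk' : c ^ k = 1 := hk
      rw [ZMod.intCast_zmod_eq_zero_iff_dvd, ← hc']
      exact orderOf_dvd_iff_zpow_eq_one.2 hk'
    exact fun x z h => this h
  have q_mem : ∀ x, q x ∈ Subgroup.zpowers c := by
    intro x
    obtain ⟨k, rfl⟩ := ZMod.intCast_surjective x
    rw [q_int]
    exact Subgroup.zpow_mem_zpowers c k
  have q_conj : ∀ x, q x * y = y * q ((s : ZMod (2 * m)) * x) := by
    intro x
    obtain ⟨k, rfl⟩ := ZMod.intCast_surjective x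
    rw [q_int, ← Int.cast_mul, q_int, zpow_mul, ← hs]
    have : y⁻¹ * c * y = y⁻¹ * c * (y⁻¹)⁻¹ := by rw [inv_inv]
    rw [this, conj_zpow]
    group
  have q_y : y * y = q (e : ZMod (2 * m)) := by rw [q_int, he]
  have q_yinv : y⁻¹ = y * q (-(e : ZMod (2 * m))) := by
    rw [q_neg, ← q_y]
    group
  have q_one : q 1 = c := by
    have := q_int 1
    simpa using this
  -- the coordinates
  let E : ZMod (2 * m) × Bool → P := fun z => (if z.2 then y else 1) * q z.1
  have hE : Function.Bijective E := by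
    constructor
    · rintro ⟨x, b⟩ ⟨x', b'⟩ h
      cases b <;> cases b' <;> simp only [E, one_mul, Bool.false_eq_true,
        ↓reduceIte] at h
      · rw [q_inj h]
      · exfalso
        apply hy
        have : y = q x * (q x')⁻¹ := by rw [h]; group
        rw [this]
        exact (Subgroup.zpowers c).mul_mem (q_mem _) ((Subgroup.zpowers c).inv_mem (q_mem _))
      · exfalso
        apply hy
        have : y = q x' * (q x)⁻¹ := by rw [← h]; group
        rw [this]
        exact (Subgroup.zpowers c).mul_mem (q_mem _) ((Subgroup.zpowers c).inv_mem (q_mem _))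
      · rw [q_inj (mul_left_cancel h)]
    · intro g
      rcases hP g with h | h
      · obtain ⟨k, hk⟩ := h
        refine ⟨((k : ZMod (2 * m)), false), ?_⟩
        simp only [E, Bool.false_eq_true, ↓reduceIte, one_mul, q_int]
        exact hk
      · obtain ⟨k, hk⟩ := h
        refine ⟨((k : ZMod (2 * m)), true), ?_⟩
        simp only [E, ↓reduceIte, q_int]
        have hk' : c ^ k = y⁻¹ * g := hk
        rw [hk']
        group
  have hunit : IsUnit ((2 : ZMod (2 * m)) - (s : ZMod (2 * m))) := by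
    obtain ⟨j, hj⟩ := hodd
    have hcop : IsCoprime (2 - s) ((2 : ℤ) ^ (a + 1)) := by
      apply IsCoprime.pow_right
      refine ⟨1, j, ?_⟩
      rw [hj]; ring
    obtain ⟨u, v, huv⟩ := hcop
    have h1 : ((u * (2 - s) + v * (2 : ℤ) ^ (a + 1) : ℤ) : ZMod (2 * m)) = ((1 : ℤ) : ZMod (2 * m)) :=
      congrArg (fun z : ℤ => (z : ZMod (2 * m))) huv
    have h2 : (((2 : ℤ) ^ (a + 1) : ℤ) : ZMod (2 * m)) = 0 := by
      have : ((2 : ℤ) ^ (a + 1) : ℤ) = ((2 * m : ℕ) : ℤ) := by
        rw [hm]; push_cast; ring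
      rw [this, Int.cast_natCast, ZMod.natCast_self]
    rw [Int.cast_add, Int.cast_mul, Int.cast_mul, h2, mul_zero, add_zero] at h1
    refine IsUnit.of_mul_eq_one (u : ZMod (2 * m)) ?_
    push_cast at h1
    linear_combination h1
  obtain ⟨e', he'⟩ := heven
  have hF := combF_inj m hm0 (e : ZMod (2 * m)) (e' : ZMod (2 * m)) (by rw [he']; push_cast; ring)
  have hD := combD_inj m (s : ZMod (2 * m)) (e : ZMod (2 * m)) hunit
  have hEFD : ∀ z, (E z)⁻¹ * E (combF m (e : ZMod (2 * m)) z) =
      E (combD m (s : ZMod (2 * m)) (e : ZMod (2 * m)) z) := by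
    rintro ⟨x, b⟩
    cases b <;> by_cases h1 : x.val < m <;>
      simp only [combF, combD, E, h1, ↓reduceIte, Bool.false_eq_true, one_mul]
    · rw [← q_neg, ← q_add]
      congr 1; ring
    · rw [← q_neg, ← mul_assoc, q_conj, mul_assoc, ← q_add]
      congr 2; ring
    · rw [mul_inv_rev, q_yinv, ← q_neg]
      rw [show q (-x) * (y * q (-(e : ZMod (2 * m)))) * q (2 * x + 1) =
        (q (-x) * y) * (q (-(e : ZMod (2 * m))) * q (2 * x + 1)) by group]
      rw [q_conj, mul_assoc, ← q_add, ← q_add]
      congr 2; ring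
    · rw [mul_inv_rev, ← q_neg]
      rw [show q (-x) * y⁻¹ * (y * q (2 * x)) = q (-x) * q (2 * x) by group]
      rw [← q_add]
      congr 1; ring
  let Ee : ZMod (2 * m) × Bool ≃ P := Equiv.ofBijective E hE
  let f : P → P := fun g => E (combF m (e : ZMod (2 * m)) (Ee.symm g))
  have hf : Function.Injective f := hE.1.comp (hF.comp Ee.symm.injective)
  have hEe : ∀ g, E (Ee.symm g) = g := fun g => Ee.apply_symm_apply g
  have hfd : ∀ g, g⁻¹ * f g = E (combD m (s : ZMod (2 * m)) (e : ZMod (2 * m)) (Ee.symm g)) := by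
    intro g
    have := hEFD (Ee.symm g)
    rw [hEe g] at this
    exact this
  have hd : Function.Injective (fun g => g⁻¹ * f g) := by
    intro g g' h
    simp only [hfd] at h
    exact Ee.symm.injective (hD (hE.1 h))
  have hinj1 : Function.Injective (fun g => f g * c) := by
    intro g g' h
    exact hf (mul_right_cancel h)
  have hinj2 : Function.Injective (fun g => g⁻¹ * (f g * c)) := by
    intro g g' h
    simp only [← mul_assoc] at h
    exact hd (mul_right_cancel h)
  refine ⟨fun g => f g * c, (Finite.injective_iff_bijective).1 hinj1,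
    (Finite.injective_iff_bijective).1 hinj2, ?_⟩
  intro H hH
  have hs1 : Ee.symm 1 = (0, false) := by
    rw [Equiv.symm_apply_eq]
    show (1 : P) = E (0, false)
    simp [E, q_zero]
  have hf1 : f 1 = 1 := by
    simp only [f, hs1, combF, ZMod.val_zero, hm0, ↓reduceIte, Bool.false_eq_true, mul_zero, E,
      q_zero, mul_one]
  have hcH : c ∈ H := by
    have := hH 1 H.one_mem
    simpa only [hf1, one_mul] using this
  have hzH : Subgroup.zpowers c ≤ H := by
    rw [Subgroup.zpowers_le]
    exact hcH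
  have hsm : Ee.symm (q (m : ZMod (2 * m))) = ((m : ZMod (2 * m)), false) := by
    rw [Equiv.symm_apply_eq]
    show q (m : ZMod (2 * m)) = E ((m : ZMod (2 * m)), false)
    simp [E]
  have hmval : ¬ ((m : ZMod (2 * m)).val < m) := by
    rw [ZMod.val_natCast, Nat.mod_eq_of_lt (by omega)]
    omega
  have hfm : f (q (m : ZMod (2 * m))) = y * q (2 * (m : ZMod (2 * m)) + 1 - (e : ZMod (2 * m))) := by
    simp only [f, hsm, combF, hmval, ↓reduceIte, Bool.false_eq_true, E]
  have hyH : y ∈ H := by
    have h1 := hH (q (m : ZMod (2 * m))) (hzH (q_mem _))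
    simp only [hfm] at h1
    have h2 : y = y * q (2 * (m : ZMod (2 * m)) + 1 - (e : ZMod (2 * m))) * c * (c⁻¹ *
      (q (2 * (m : ZMod (2 * m)) + 1 - (e : ZMod (2 * m))))⁻¹) := by group
    rw [h2]
    exact H.mul_mem h1 (H.mul_mem (H.inv_mem hcH) (H.inv_mem (hzH (q_mem _))))
  rw [eq_top_iff]
  intro g _
  rcases hP g with h | h
  · exact hzH h
  · have : g = y * (y⁻¹ * g) := by group
    rw [this]
    exact H.mul_mem hyH (hzH h)

end CaseA


section Gluing

theorem exists_special {E : Type u} [Group E] [Finite E] {f : E → E} (hf : Good E f) :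
    ∃ u : E, ∀ V : Subgroup E, (∀ v ∈ V, v ≠ u → f v ∈ V) → V = ⊤ := by
  classical
  obtain ⟨_, _, hH⟩ := hf
  let W : E → Subgroup E := fun u => sInf {V : Subgroup E | ∀ v ∈ V, v ≠ u → f v ∈ V}
  have hW : ∀ u, ∀ v ∈ W u, v ≠ u → f v ∈ W u := by
    intro u v hv hvu
    rw [Subgroup.mem_sInf] at hv ⊢
    intro V hV
    exact hV v (hv V hV) hvu
  have hWle : ∀ u, ∀ V : Subgroup E, (∀ v ∈ V, v ≠ u → f v ∈ V) → W u ≤ V := by
    intro u V hV
    exact sInf_le hV
  obtain ⟨u, hu⟩ := Finite.exists_max (fun u => Nat.card (W u))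
  refine ⟨u, fun V hV => ?_⟩
  have hWu : W u = ⊤ := by
    by_contra hne
    obtain ⟨w, hw⟩ : ∃ w, w ∉ W u := by
      by_contra hcon
      push Not at hcon
      exact hne ((Subgroup.eq_top_iff' _).2 hcon)
    have hnc : ∃ h ∈ W u, f h ∉ W u := by
      by_contra hcon
      push Not at hcon
      exact hne (hH _ hcon)
    obtain ⟨h, hh, hfh⟩ := hnc
    have hhu : h = u := by
      by_contra hne'
      exact hfh (hW u h hh hne')
    subst hhu
    have hle : W h ≤ W w := by
      have := hWle h (W h ⊓ W w) (by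
        intro v hv hvh
        have hvw : v ≠ w := by
          rintro rfl
          exact hw hv.1
        exact ⟨hW h v hv.1 hvh, hW w v hv.2 hvw⟩)
      exact this.trans inf_le_right
    have hfw : f h ∈ W w := hW w h (hle hh) (by
      rintro rfl
      exact hw hh)
    have hlt : W h < W w := lt_of_le_of_ne hle (by
      intro he
      rw [he] at hfh
      exact hfh hfw)
    have hcard : Nat.card (W h) < Nat.card (W w) := by
      have := Set.ncard_lt_ncard (s := (W h : Set E)) (t := (W w : Set E)) hlt (Set.toFinite _)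
      exact this
    exact absurd (hu w) (not_le.2 hcard)
  rw [eq_top_iff, ← hWu]
  exact hWle u V hV

variable {G : Type u} [Group G] (K : Subgroup G) [K.Normal]

/-- images of closed subgroups -/
theorem closed_map {fb : G ⧸ K → G ⧸ K} {θ : K → K} {t : G ⧸ K → K}
    (hfb : ∀ H : Subgroup (G ⧸ K), (∀ h ∈ H, fb h ∈ H) → H = ⊤) {H : Subgroup G}
    (hH : ∀ h ∈ H, lift K fb θ t h ∈ H) (u : G ⧸ K) : ∃ h ∈ H, (h : G ⧸ K) = u := by
  have := hfb (H.map (QuotientGroup.mk' K)) (by
    intro v hv
    obtain ⟨h, hh, rfl⟩ := hv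
    exact ⟨lift K fb θ t h, hH h hh, mk_lift K fb θ t h⟩)
  have hu : u ∈ H.map (QuotientGroup.mk' K) := by rw [this]; trivial
  obtain ⟨h, hh, hu⟩ := hu
  exact ⟨h, hh, hu⟩

theorem top_of_meets {H : Subgroup G} (h : ∀ u : G ⧸ K, ∃ h ∈ H, (h : G ⧸ K) = u)
    (hKH : K ≤ H) : H = ⊤ := by
  rw [Subgroup.eq_top_iff']
  intro g
  obtain ⟨a, ha, hag⟩ := h (g : G ⧸ K)
  have := mem_of_mk K hag
  have e : g = a * (a⁻¹ * g) := by group
  rw [e]
  exact H.mul_mem ha (hKH this)

theorem frattini_extension [Finite G] (hK : ∀ H : Subgroup G, H ⊔ K = ⊤ → H = ⊤)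
    (hθ : IsGood K) (hgood : IsGood (G ⧸ K)) : IsGood G := by
  obtain ⟨θ, hθ1, hθ2, _⟩ := hθ
  obtain ⟨fb, hfb, hgb, hHb⟩ := hgood
  refine ⟨lift K fb θ (fun _ => 1), (Finite.injective_iff_bijective).1 (lift_inj K hfb.1 hθ1.1 _),
    (Finite.injective_iff_bijective).1 (inv_mul_lift_inj K hgb.1 hθ2.1 _), ?_⟩
  intro H hH
  apply hK
  apply top_of_meets K ?_ le_sup_right
  intro u
  obtain ⟨h, hh, hu⟩ := closed_map K hHb hH u
  exact ⟨h, (le_sup_left : H ≤ H ⊔ K) hh, hu⟩

theorem index_two_extension [Finite G] (S : Subgroup G)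
    (hSgen : ∀ H : Subgroup G, H ⊔ S = ⊤ → H = ⊤) (x : G) (hxK : x ∈ K) (hxS : x ∉ S)
    (hind : ∀ k ∈ K, k ∈ S ∨ x⁻¹ * k ∈ S)
    (hθ : IsGood K) (hgood : IsGood (G ⧸ K)) : IsGood G := by
  classical
  obtain ⟨θ, hθ1, hθ2, _⟩ := hθ
  obtain ⟨fb, hfb, hgb, hHb⟩ := hgood
  obtain ⟨u, hu⟩ := exists_special (f := fb) ⟨hfb, hgb, hHb⟩
  set t1 : G ⧸ K → K := fun _ => 1 with ht1
  set t2 : G ⧸ K → K := fun v => if v = u then ⟨x, hxK⟩ else 1 with ht2
  by_contra hno
  have key : ∀ t : G ⧸ K → K, ∃ H : Subgroup G, (∀ h ∈ H, lift K fb θ t h ∈ H) ∧ H ≠ ⊤ := by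
    intro t
    by_contra hcon
    push Not at hcon
    exact hno ⟨lift K fb θ t, (Finite.injective_iff_bijective).1 (lift_inj K hfb.1 hθ1.1 t),
      (Finite.injective_iff_bijective).1 (inv_mul_lift_inj K hgb.1 hθ2.1 t), hcon⟩
  obtain ⟨H1, hH1, hH1t⟩ := key t1
  obtain ⟨H2, hH2, hH2t⟩ := key t2
  -- a subgroup that meets all cosets and whose join with S is proper
  have hcap : ∀ H : Subgroup G, H ≠ ⊤ → (∀ v : G ⧸ K, ∃ h ∈ H, (h : G ⧸ K) = v) →
      ∀ k ∈ K, k ∈ H ⊔ S → k ∈ S := by
    intro H hHt hm k hk hkH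
    by_contra hkS
    apply hHt
    apply hSgen
    apply top_of_meets K
    · intro v
      obtain ⟨h, hh, hv⟩ := hm v
      exact ⟨h, (le_sup_left : H ≤ H ⊔ S) hh, hv⟩
    · have hx : x ∈ H ⊔ S := by
        rcases hind k hk with h | h
        · exact absurd h hkS
        · have e : x = k * (x⁻¹ * k)⁻¹ := by group
          rw [e]
          exact (H ⊔ S).mul_mem hkH ((H ⊔ S).inv_mem ((le_sup_right : S ≤ H ⊔ S) h))
      intro k' hk'
      rcases hind k' hk' with h | h
      · exact (le_sup_right : S ≤ H ⊔ S) h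
      · have e : k' = x * (x⁻¹ * k') := by group
        rw [e]
        exact (H ⊔ S).mul_mem hx ((le_sup_right : S ≤ H ⊔ S) h)
  have hm1 := closed_map K hHb hH1
  have hm2 := closed_map K hHb hH2
  have hWm : ∀ v : G ⧸ K, ∃ h ∈ H1 ⊓ H2, (h : G ⧸ K) = v := by
    have := hu ((H1 ⊓ H2).map (QuotientGroup.mk' K)) (by
      intro v hv hvu
      obtain ⟨h, hh, rfl⟩ := hv
      refine ⟨lift K fb θ t1 h, ⟨hH1 h hh.1, ?_⟩, mk_lift K fb θ t1 h⟩
      have h2 := hH2 h hh.2
      have e : lift K fb θ t2 h = lift K fb θ t1 h := by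
        have : (h : G ⧸ K) ≠ u := hvu
        simp only [lift, ht1, ht2, this, if_false]
      rwa [e] at h2)
    intro v
    have hv : v ∈ (H1 ⊓ H2).map (QuotientGroup.mk' K) := by rw [this]; trivial
    obtain ⟨h, hh, hv⟩ := hv
    exact ⟨h, hh, hv⟩
  have hle : ∀ H : Subgroup G, H ≠ ⊤ → (∀ v : G ⧸ K, ∃ h ∈ H, (h : G ⧸ K) = v) → H1 ⊓ H2 ≤ H →
      H ≤ (H1 ⊓ H2) ⊔ S := by
    intro H hHt hm hWH g hg
    obtain ⟨w, hw, hwg⟩ := hWm (g : G ⧸ K)
    have h1 : w⁻¹ * g ∈ S := by
      apply hcap H hHt hm _ (mem_of_mk K hwg)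
      exact (le_sup_left : H ≤ H ⊔ S) (H.mul_mem (H.inv_mem (hWH hw)) hg)
    have e : g = w * (w⁻¹ * g) := by group
    rw [e]
    exact (H1 ⊓ H2 ⊔ S).mul_mem ((le_sup_left : H1 ⊓ H2 ≤ H1 ⊓ H2 ⊔ S) hw)
      ((le_sup_right : S ≤ H1 ⊓ H2 ⊔ S) h1)
  obtain ⟨h, hh, hhu⟩ := hWm u
  have hf1 : lift K fb θ t1 h ∈ (H1 ⊓ H2) ⊔ S := hle H1 hH1t hm1 inf_le_left (hH1 h hh.1)
  have hf2 : lift K fb θ t2 h ∈ (H1 ⊓ H2) ⊔ S := hle H2 hH2t hm2 inf_le_right (hH2 h hh.2)
  have e : x = (lift K fb θ t1 h)⁻¹ * lift K fb θ t2 h := by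
    simp only [lift, ht1, ht2, hhu, if_true, Subgroup.coe_one, mul_one]
    group
  apply hxS
  apply hcap H1 hH1t hm1 x hxK
  rw [e]
  have hle2 : (H1 ⊓ H2) ⊔ S ≤ H1 ⊔ S := sup_le_sup_right inf_le_left S
  exact (H1 ⊔ S).mul_mem ((H1 ⊔ S).inv_mem (hle2 hf1)) (hle2 hf2)

end Gluing


section TwoGroups

/-- The subgroup generated by the squares. -/
def sqSub (P : Type u) [Group P] : Subgroup P := Subgroup.closure (Set.range fun x : P => x * x)

theorem sq_mem {P : Type u} [Group P] (x : P) : x * x ∈ sqSub P := Subgroup.subset_closure ⟨x, rfl⟩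

instance sqSub_normal {P : Type u} [Group P] : (sqSub P).Normal := by
  constructor
  intro n hn g
  induction hn using Subgroup.closure_induction with
  | mem x hx =>
    obtain ⟨y, rfl⟩ := hx
    have : g * (y * y) * g⁻¹ = (g * y * g⁻¹) * (g * y * g⁻¹) := by group
    simp only [this]
    exact sq_mem _
  | one => simp
  | mul x y _ _ hx hy =>
    have : g * (x * y) * g⁻¹ = (g * x * g⁻¹) * (g * y * g⁻¹) := by group
    rw [this]
    exact (sqSub P).mul_mem hx hy
  | inv x _ hx =>
    have : g * x⁻¹ * g⁻¹ = (g * x * g⁻¹)⁻¹ := by group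
    rw [this]
    exact (sqSub P).inv_mem hx

variable {P : Type u} [Group P]

theorem eq_one_of_mem_sq (hP : IsPGroup 2 P) {a : P} (ha : a ∈ Subgroup.zpowers (a * a)) : a = 1 := by
  obtain ⟨k, hk⟩ := ha
  have hk' : (a * a) ^ k = a := hk
  obtain ⟨n, hn⟩ := hP a
  have h1 : a ^ (2 * k - 1) = 1 := by
    have : (a * a) ^ k = a ^ (2 * k) := by
      rw [zpow_mul]
      congr 1
      rw [zpow_ofNat, pow_two]
    rw [zpow_sub, ← this, hk', zpow_one, mul_inv_cancel]
  have hcop : IsCoprime (2 * k - 1) ((2 : ℤ) ^ n) := by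
    apply IsCoprime.pow_right
    exact ⟨-1, k, by ring⟩
  obtain ⟨u, v, huv⟩ := hcop
  have h2 : a ^ ((2 : ℤ) ^ n) = 1 := by
    have : ((2 : ℤ) ^ n) = ((2 ^ n : ℕ) : ℤ) := by push_cast; rfl
    rw [this, zpow_natCast, hn]
  calc a = a ^ (1 : ℤ) := (zpow_one a).symm
    _ = a ^ ((2 * k - 1) * u + (2 : ℤ) ^ n * v) := by
        rw [show (2 * k - 1) * u + (2 : ℤ) ^ n * v = 1 by linear_combination huv]
    _ = 1 := by rw [zpow_add, zpow_mul, zpow_mul, h1, h2, one_zpow, one_zpow, mul_one]

theorem zpowers_eq_of_notMem (hP : IsPGroup 2 P) {a t : P} (ht : t ∈ Subgroup.zpowers a)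
    (ht' : t ∉ Subgroup.zpowers (a * a)) : Subgroup.zpowers t = Subgroup.zpowers a := by
  apply le_antisymm
  · rw [Subgroup.zpowers_le]
    exact ht
  · rw [Subgroup.zpowers_le]
    obtain ⟨k, hk⟩ := ht
    have hk' : a ^ k = t := hk
    rcases Int.even_or_odd k with ⟨j, hj⟩ | ⟨j, hj⟩
    · exfalso
      apply ht'
      refine ⟨j, ?_⟩
      show (a * a) ^ j = t
      rw [← hk', hj, ← two_mul, zpow_mul]
      congr 1
      rw [zpow_ofNat, pow_two]
    · obtain ⟨n, hn⟩ := hP a
      have hcop : IsCoprime k ((2 : ℤ) ^ n) := by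
        apply IsCoprime.pow_right
        exact ⟨1, -j, by rw [hj]; ring⟩
      obtain ⟨u, v, huv⟩ := hcop
      have h2 : a ^ ((2 : ℤ) ^ n) = 1 := by
        have : ((2 : ℤ) ^ n) = ((2 ^ n : ℕ) : ℤ) := by push_cast; rfl
        rw [this, zpow_natCast, hn]
      refine ⟨u, ?_⟩
      show t ^ u = a
      rw [← hk', ← zpow_mul]
      calc a ^ (k * u) = a ^ (k * u) * (a ^ ((2 : ℤ) ^ n)) ^ v := by rw [h2, one_zpow, mul_one]
        _ = a ^ (k * u + (2 : ℤ) ^ n * v) := by rw [← zpow_mul, ← zpow_add]
        _ = a ^ (1 : ℤ) := by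
            rw [show k * u + (2 : ℤ) ^ n * v = 1 by linear_combination huv]
        _ = a := zpow_one a

theorem sq_mem_coatom [Finite P] (hP : IsPGroup 2 P) {M : Subgroup P} (hM : IsCoatom M) (x : P) :
    x * x ∈ M := by
  have : Fact (Nat.Prime 2) := ⟨Nat.prime_two⟩
  have hnil : Group.IsNilpotent P := hP.isNilpotent
  have hnorm : M.Normal :=
    Subgroup.NormalizerCondition.normal_of_coatom M Group.normalizerCondition_of_isNilpotent hM
  by_contra hx
  have hxM : x ∉ M := fun h => hx (M.mul_mem h h)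
  have htop : M ⊔ Subgroup.zpowers (x * x) = ⊤ := by
    apply hM.2
    refine lt_of_le_of_ne le_sup_left ?_
    intro he
    apply hx
    rw [he]
    exact (le_sup_right : Subgroup.zpowers (x * x) ≤ M ⊔ _) (Subgroup.mem_zpowers _)
  have hxin : x ∈ M ⊔ Subgroup.zpowers (x * x) := by rw [htop]; trivial
  rw [Subgroup.mem_sup_of_normal_left] at hxin
  obtain ⟨m, hm, z, hz, hmz⟩ := hxin
  obtain ⟨k, hk⟩ := hz
  have hk' : (x * x) ^ k = z := hk
  have h1 : (x : P ⧸ M) ∈ Subgroup.zpowers ((x : P ⧸ M) * (x : P ⧸ M)) := by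
    refine ⟨k, ?_⟩
    show ((x : P ⧸ M) * (x : P ⧸ M)) ^ k = (x : P ⧸ M)
    rw [← QuotientGroup.mk_mul, ← QuotientGroup.mk_zpow, hk', ← hmz, QuotientGroup.mk_mul,
      (QuotientGroup.eq_one_iff _).2 hm, one_mul]
  have h2 := eq_one_of_mem_sq (hP.to_quotient M) h1
  exact hxM ((QuotientGroup.eq_one_iff _).1 h2)

theorem sqSub_nongen [Finite P] (hP : IsPGroup 2 P) (H : Subgroup P) (h : H ⊔ sqSub P = ⊤) :
    H = ⊤ := by
  by_contra hne
  obtain ⟨M, hM, hHM⟩ := (eq_top_or_exists_le_coatom H).resolve_left hne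
  have : sqSub P ≤ M := by
    unfold sqSub
    rw [Subgroup.closure_le]
    rintro _ ⟨x, rfl⟩
    exact sq_mem_coatom hP hM x
  apply hM.1
  rw [eq_top_iff, ← h]
  exact sup_le hHM this

theorem quot_sq (K : Subgroup P) [K.Normal] (hK : sqSub P ≤ K) (x : P ⧸ K) : x * x = 1 := by
  obtain ⟨g, rfl⟩ := QuotientGroup.mk_surjective x
  rw [← QuotientGroup.mk_mul, QuotientGroup.eq_one_iff]
  exact hK (sq_mem g)

theorem comm_of_sq {E : Type u} [Group E] (h2 : ∀ x : E, x * x = 1) (a b : E) : a * b = b * a := by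
  have hinv : ∀ x : E, x⁻¹ = x := fun x => (eq_inv_of_mul_eq_one_left (h2 x)).symm
  have := hinv (a * b)
  rw [mul_inv_rev, hinv, hinv] at this
  exact this.symm

theorem comm_mem_sqSub (a b : P) : a⁻¹ * b⁻¹ * (a * b) ∈ sqSub P := by
  have h := comm_of_sq (quot_sq (sqSub P) le_rfl) (a : P ⧸ sqSub P) (b : P ⧸ sqSub P)
  rw [← QuotientGroup.mk_mul, ← QuotientGroup.mk_mul, QuotientGroup.eq] at h
  have h2 : a⁻¹ * b⁻¹ * (a * b) = ((a * b)⁻¹ * (b * a))⁻¹ := by group
  have h3 := comm_of_sq (quot_sq (sqSub P) le_rfl) (b : P ⧸ sqSub P) (a : P ⧸ sqSub P)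
  rw [← QuotientGroup.mk_mul, ← QuotientGroup.mk_mul, QuotientGroup.eq] at h3
  have h4 : a⁻¹ * b⁻¹ * (a * b) = (b * a)⁻¹ * (a * b) := by group
  rw [h4]
  exact h3

theorem normal_of_sqSub_le (K : Subgroup P) (hK : sqSub P ≤ K) : K.Normal := by
  constructor
  intro k hk g
  have h := comm_mem_sqSub (k⁻¹) (g⁻¹)
  have e : g * k * g⁻¹ = k * (k⁻¹ * g * (k * g⁻¹)) := by group
  rw [e]
  apply K.mul_mem hk
  have h' := comm_mem_sqSub k (g⁻¹)
  rw [inv_inv] at h'
  exact hK h'

theorem card_quot_ge [Finite P] (hP : IsPGroup 2 P) (hnc : ¬ IsCyclic P) :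
    3 ≤ Nat.card (P ⧸ sqSub P) := by
  by_contra hlt
  push Not at hlt
  apply hnc
  have hpos : 0 < Nat.card (P ⧸ sqSub P) := Nat.card_pos
  have hcase : Nat.card (P ⧸ sqSub P) = 1 ∨ Nat.card (P ⧸ sqSub P) = 2 := by omega
  rcases hcase with h | h
  · have h1 : sqSub P = ⊤ := Subgroup.index_eq_one.1 h
    have h2 := sqSub_nongen hP ⊥ (by rw [h1]; simp)
    have : Subsingleton P := by
      rw [← Subgroup.subsingleton_iff]
      exact subsingleton_of_bot_eq_top h2
    infer_instance
  · have h1 := (Subgroup.index_eq_two_iff_exists_notMem_and' (H := sqSub P)).1 h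
    obtain ⟨a, ha, hb⟩ := h1
    have : Subgroup.zpowers a = ⊤ := by
      apply sqSub_nongen hP
      rw [Subgroup.eq_top_iff']
      intro x
      rcases hb x with h | h
      · have e : x = a⁻¹ * (a * x) := by group
        rw [e]
        exact Subgroup.mul_mem _ ((Subgroup.zpowers a ⊔ sqSub P).inv_mem
          ((le_sup_left : Subgroup.zpowers a ≤ Subgroup.zpowers a ⊔ sqSub P)
            (Subgroup.mem_zpowers a))) ((le_sup_right : sqSub P ≤ Subgroup.zpowers a ⊔ sqSub P) h)
      · exact (le_sup_right : sqSub P ≤ Subgroup.zpowers a ⊔ sqSub P) h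
    refine ⟨a, fun x => ?_⟩
    have hx : x ∈ Subgroup.zpowers a := by rw [this]; trivial
    exact hx

end TwoGroups


section MainTwo

variable {P : Type u} [Group P]

theorem three_le_card {α : Type u} [Finite α] {a b c : α} (hab : a ≠ b) (hac : a ≠ c)
    (hbc : b ≠ c) : 3 ≤ Nat.card α := by
  classical
  have : Fintype α := Fintype.ofFinite α
  rw [Nat.card_eq_fintype_card]
  have h3 : ({a, b, c} : Finset α).card = 3 := Finset.card_eq_three.2 ⟨a, b, c, hab, hac, hbc, rfl⟩
  rw [← h3]
  exact Finset.card_le_univ _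

theorem exists_sq_gen (hP : IsPGroup 2 P) (hS : sqSub P ≠ ⊥) (hcyc : IsCyclic (sqSub P)) :
    ∃ g : P, Subgroup.zpowers (g * g) = sqSub P := by
  obtain ⟨⟨s, hs⟩, hgen⟩ := hcyc.exists_generator
  have hsz : Subgroup.zpowers s = sqSub P := by
    apply le_antisymm
    · rw [Subgroup.zpowers_le]
      exact hs
    · intro x hx
      obtain ⟨k, hk⟩ := hgen ⟨x, hx⟩
      exact ⟨k, congrArg Subtype.val hk⟩
  by_contra hcon
  push Not at hcon
  have hle : sqSub P ≤ Subgroup.zpowers (s * s) := by
    conv_lhs => unfold sqSub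
    rw [Subgroup.closure_le]
    rintro _ ⟨x, rfl⟩
    by_contra hx
    apply hcon x
    rw [← hsz]
    apply zpowers_eq_of_notMem hP _ hx
    rw [hsz]
    exact sq_mem x
  have h1 := eq_one_of_mem_sq hP (hle hs)
  apply hS
  rw [← hsz, h1, Subgroup.zpowers_one_eq_bot]

theorem star (hP : IsPGroup 2 P) {x : P}
    (hcyc : IsCyclic (sqSub P ⊔ Subgroup.zpowers x : Subgroup P)) (hx : x ∉ sqSub P) :
    Subgroup.zpowers (x * x) = sqSub P := by
  set K : Subgroup P := sqSub P ⊔ Subgroup.zpowers x with hK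
  have hSK : sqSub P ≤ K := le_sup_left
  have hxK : x ∈ K := (le_sup_right : Subgroup.zpowers x ≤ K) (Subgroup.mem_zpowers x)
  obtain ⟨⟨k, hk⟩, hgen⟩ := hcyc.exists_generator
  have hkz : Subgroup.zpowers k = K := by
    apply le_antisymm
    · rw [Subgroup.zpowers_le]
      exact hk
    · intro x hx
      obtain ⟨j, hj⟩ := hgen ⟨x, hx⟩
      exact ⟨j, congrArg Subtype.val hj⟩
  have hkk : Subgroup.zpowers (k * k) ≤ sqSub P := by
    rw [Subgroup.zpowers_le]
    exact sq_mem k
  have hxk : Subgroup.zpowers x = Subgroup.zpowers k := by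
    apply zpowers_eq_of_notMem hP
    · rw [hkz]
      exact hxK
    · intro h
      exact hx (hkk h)
  apply le_antisymm
  · rw [Subgroup.zpowers_le]
    exact sq_mem x
  · intro s hs
    by_contra hsx
    have h1 : Subgroup.zpowers s = Subgroup.zpowers x := by
      apply zpowers_eq_of_notMem hP _ hsx
      rw [hxk, hkz]
      exact hSK hs
    apply hx
    have h2 : x ∈ Subgroup.zpowers s := by
      rw [h1]
      exact Subgroup.mem_zpowers x
    exact (Subgroup.zpowers_le.2 hs : Subgroup.zpowers s ≤ sqSub P) h2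

theorem exists_noncyclic [Finite P] (hP : IsPGroup 2 P) (hS : sqSub P ≠ ⊥)
    (hcyc : IsCyclic (sqSub P)) {g y w : P} (hg : Subgroup.zpowers (g * g) = sqSub P)
    (hy : y ∉ Subgroup.zpowers g) (hw : w ∉ Subgroup.zpowers g)
    (hyw : y⁻¹ * w ∉ Subgroup.zpowers g) :
    ∃ x, x ∉ sqSub P ∧ ¬ IsCyclic (sqSub P ⊔ Subgroup.zpowers x : Subgroup P) := by
  classical
  by_contra hcon
  push Not at hcon
  have hst : ∀ x, x ∉ sqSub P → Subgroup.zpowers (x * x) = sqSub P :=
    fun x hx => star hP (hcon x hx) hx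
  set s0 : P := g * g with hs0
  have hs0S : s0 ∈ sqSub P := sq_mem g
  have hs0ne : s0 ∉ Subgroup.zpowers (s0 * s0) := by
    intro h
    have := eq_one_of_mem_sq hP h
    apply hS
    rw [← hg, this, Subgroup.zpowers_one_eq_bot]
  have hSC : sqSub P ≤ Subgroup.zpowers g := by
    rw [← hg, Subgroup.zpowers_le]
    exact Subgroup.mul_mem _ (Subgroup.mem_zpowers g) (Subgroup.mem_zpowers g)
  have hgS : g ∉ sqSub P := by
    intro h
    rw [← hg] at h
    have := eq_one_of_mem_sq hP h
    apply hS
    rw [← hg, hs0, this, mul_one, Subgroup.zpowers_one_eq_bot]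
  have hgC : g ∈ Subgroup.zpowers g := Subgroup.mem_zpowers g
  -- S is central
  have hcent : ∀ x : P, ∀ s ∈ sqSub P, x * s = s * x := by
    intro x s hs
    by_cases hx : x ∈ sqSub P
    · rw [← hg] at hx hs
      obtain ⟨i, hi⟩ := hx
      obtain ⟨j, hj⟩ := hs
      rw [← hi, ← hj]
      show s0 ^ i * s0 ^ j = s0 ^ j * s0 ^ i
      rw [← zpow_add, ← zpow_add, add_comm]
    · rw [← hst x hx] at hs
      obtain ⟨j, hj⟩ := hs
      rw [← hj]
      show x * (x * x) ^ j = (x * x) ^ j * x
      have hc : Commute x (x * x) := (Commute.refl x).mul_right (Commute.refl x)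
      exact (hc.zpow_right j).eq
  have hκ : ∀ a b : P, a⁻¹ * b⁻¹ * (a * b) ∈ sqSub P := comm_mem_sqSub
  have hκmul : ∀ a b c : P, a⁻¹ * (b * c)⁻¹ * (a * (b * c)) =
      (a⁻¹ * b⁻¹ * (a * b)) * (a⁻¹ * c⁻¹ * (a * c)) := by
    intro a b c
    have h1 := hcent c _ (hκ a b)
    have h2 := hcent (a⁻¹ * c⁻¹ * (a * c)) _ (hκ a b)
    calc a⁻¹ * (b * c)⁻¹ * (a * (b * c)) = a⁻¹ * c⁻¹ * a * ((a⁻¹ * b⁻¹ * (a * b)) * c) := by group
      _ = a⁻¹ * c⁻¹ * a * (c * (a⁻¹ * b⁻¹ * (a * b))) := by rw [h1]
      _ = (a⁻¹ * c⁻¹ * (a * c)) * (a⁻¹ * b⁻¹ * (a * b)) := by group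
      _ = _ := h2
  have hκsq : ∀ a b : P, (a⁻¹ * b⁻¹ * (a * b)) * (a⁻¹ * b⁻¹ * (a * b)) = 1 := by
    intro a b
    rw [← hκmul]
    have := hcent a _ (sq_mem b)
    rw [this]
    group
  have hodd : ∀ a : P, a ∉ sqSub P → ∃ i : ℤ, Odd i ∧ a * a = s0 ^ i := by
    intro a ha
    have h1 := hst a ha
    have h2 : a * a ∈ Subgroup.zpowers s0 := by
      rw [hg]
      exact sq_mem a
    obtain ⟨i, hi⟩ := h2
    have hi' : s0 ^ i = a * a := hi
    refine ⟨i, ?_, hi'.symm⟩
    rcases Int.even_or_odd i with ⟨j, hj⟩ | h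
    · exfalso
      apply hs0ne
      have h3 : a * a ∈ Subgroup.zpowers (s0 * s0) := by
        refine ⟨j, ?_⟩
        show (s0 * s0) ^ j = a * a
        rw [← hi', hj, ← two_mul, zpow_mul]
        congr 1
        rw [zpow_ofNat, pow_two]
      have h4 : Subgroup.zpowers (a * a) ≤ Subgroup.zpowers (s0 * s0) := by
        rw [Subgroup.zpowers_le]
        exact h3
      apply h4
      rw [h1]
      exact hs0S
    · exact h
  have hκne : ∀ a b : P, a ∉ sqSub P → b ∉ sqSub P → a * b ∉ sqSub P →
      a⁻¹ * b⁻¹ * (a * b) ≠ 1 := by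
    intro a b ha hb hab h
    have hc : a * b = b * a := by
      have : a⁻¹ * b⁻¹ * (a * b) = (b * a)⁻¹ * (a * b) := by group
      rw [this, inv_mul_eq_one] at h
      exact h.symm
    obtain ⟨i, ⟨i', hi'⟩, hi⟩ := hodd a ha
    obtain ⟨j, ⟨j', hj'⟩, hj⟩ := hodd b hb
    have h1 : (a * b) * (a * b) = s0 ^ (i + j) := by
      rw [zpow_add, ← hi, ← hj]
      calc a * b * (a * b) = a * (b * a) * b := by group
        _ = a * (a * b) * b := by rw [hc]
        _ = a * a * (b * b) := by group
    have h2 := hst (a * b) hab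
    apply hs0ne
    have h3 : (a * b) * (a * b) ∈ Subgroup.zpowers (s0 * s0) := by
      refine ⟨i' + j' + 1, ?_⟩
      show (s0 * s0) ^ (i' + j' + 1) = a * b * (a * b)
      rw [h1, hi', hj', show (2 * i' + 1 + (2 * j' + 1)) = 2 * (i' + j' + 1) by ring, zpow_mul]
      congr 1
      rw [zpow_ofNat, pow_two]
    have h4 : Subgroup.zpowers ((a * b) * (a * b)) ≤ Subgroup.zpowers (s0 * s0) := by
      rw [Subgroup.zpowers_le]
      exact h3
    apply h4
    rw [h2]
    exact hs0S
  have n1 : g * y ∉ Subgroup.zpowers g := by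
    intro h
    apply hy
    have e : y = g⁻¹ * (g * y) := by group
    rw [e]
    exact Subgroup.mul_mem _ (Subgroup.inv_mem _ hgC) h
  have n2 : g * w ∉ Subgroup.zpowers g := by
    intro h
    apply hw
    have e : w = g⁻¹ * (g * w) := by group
    rw [e]
    exact Subgroup.mul_mem _ (Subgroup.inv_mem _ hgC) h
  have n3 : y * w ∉ Subgroup.zpowers g := by
    intro h
    apply hyw
    have h1 : y⁻¹ * y⁻¹ ∈ Subgroup.zpowers g := hSC (sq_mem _)
    have h2 : y⁻¹ * w = (y⁻¹ * y⁻¹) * (y * w) := by group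
    rw [h2]
    exact Subgroup.mul_mem _ h1 h
  have n4 : g * (y * w) ∉ Subgroup.zpowers g := by
    intro h
    apply n3
    have e : y * w = g⁻¹ * (g * (y * w)) := by group
    rw [e]
    exact Subgroup.mul_mem _ (Subgroup.inv_mem _ hgC) h
  have k1 := hκne g y hgS (fun h => hy (hSC h)) (fun h => n1 (hSC h))
  have k2 := hκne g w hgS (fun h => hw (hSC h)) (fun h => n2 (hSC h))
  have k3 := hκne g (y * w) hgS (fun h => n3 (hSC h)) (fun h => n4 (hSC h))
  rw [hκmul] at k3
  have k4 : g⁻¹ * y⁻¹ * (g * y) ≠ g⁻¹ * w⁻¹ * (g * w) := by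
    intro h
    rw [h] at k3
    exact k3 (hκsq g w)
  -- three solutions of x ^ 2 = 1 in a cyclic group
  have : Fintype (sqSub P) := Fintype.ofFinite _
  have hle := IsCyclic.card_pow_eq_one_le (α := sqSub P) (n := 2) (by norm_num)
  have h3 : ({1, ⟨_, hκ g y⟩, ⟨_, hκ g w⟩} : Finset (sqSub P)) ⊆
      Finset.univ.filter (fun a : sqSub P => a ^ 2 = 1) := by
    intro x hx
    rw [Finset.mem_filter]
    refine ⟨Finset.mem_univ _, ?_⟩
    simp only [Finset.mem_insert, Finset.mem_singleton] at hx
    rcases hx with rfl | rfl | rfl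
    · simp
    · rw [pow_two]
      exact Subtype.ext (hκsq g y)
    · rw [pow_two]
      exact Subtype.ext (hκsq g w)
  have h4 : ({1, ⟨_, hκ g y⟩, ⟨_, hκ g w⟩} : Finset (sqSub P)).card = 3 := by
    apply Finset.card_eq_three.2
    refine ⟨_, _, _, ?_, ?_, ?_, rfl⟩
    · intro h
      exact k1 (congrArg Subtype.val h).symm
    · intro h
      exact k2 (congrArg Subtype.val h).symm
    · intro h
      exact k4 (congrArg Subtype.val h)
  have h5 := Finset.card_le_card h3
  rw [h4] at h5
  omega

theorem two_group_good (n : ℕ) : ∀ (P : Type u) [Group P] [Finite P], Nat.card P = n →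
    IsPGroup 2 P → ¬ IsCyclic P → IsGood P := by
  induction n using Nat.strong_induction_on with
  | _ n ih =>
    intro P _ _ hn hP hnc
    have hcard := card_quot_ge hP hnc
    have hgoodS : IsGood (P ⧸ sqSub P) := elementary_good _ (quot_sq _ le_rfl) hcard
    by_cases hS : sqSub P = ⊥
    · apply elementary_good
      · intro x
        have := sq_mem x
        rwa [hS, Subgroup.mem_bot] at this
      · have h1 := Subgroup.card_eq_card_quotient_mul_card_subgroup (sqSub P)
        have h2 : 0 < Nat.card (sqSub P) := Nat.card_pos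
        nlinarith
    · by_cases hcyc : IsCyclic (sqSub P)
      · obtain ⟨g, hg⟩ := exists_sq_gen hP hS hcyc
        have hg1 : g ≠ 1 := by
          rintro rfl
          apply hS
          rw [← hg, mul_one, Subgroup.zpowers_one_eq_bot]
        obtain ⟨y, hy⟩ : ∃ y, y ∉ Subgroup.zpowers g := by
          by_contra hcon
          push Not at hcon
          exact hnc ⟨g, hcon⟩
        have hmem2 : ∀ x ∈ sqSub P, ∃ k : ℤ, x = g ^ (2 * k) := by
          intro x hx
          rw [← hg] at hx
          obtain ⟨k, hk⟩ := hx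
          refine ⟨k, ?_⟩
          rw [← hk, zpow_mul]
          show (g * g) ^ k = _
          congr 1
          rw [zpow_ofNat, pow_two]
        have hSC : sqSub P ≤ Subgroup.zpowers g := by
          intro x hx
          obtain ⟨k, hk⟩ := hmem2 x hx
          exact ⟨2 * k, hk.symm⟩
        by_cases hall : ∀ h, h ∈ Subgroup.zpowers g ∨ y⁻¹ * h ∈ Subgroup.zpowers g
        · obtain ⟨a, ha⟩ := (IsPGroup.iff_orderOf.1 hP) g
          cases a with
          | zero =>
            exfalso
            rw [pow_zero, orderOf_eq_one_iff] at ha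
            exact hg1 ha
          | succ a =>
            obtain ⟨j, hj⟩ := hmem2 _ (comm_mem_sqSub g y)
            obtain ⟨k, hk⟩ := hmem2 _ (sq_mem y)
            refine caseA_good a g y ha hy hall (1 + 2 * j) (2 * k) ?_ ⟨j, by ring⟩ hk ⟨k, by ring⟩
            rw [zpow_add, ← hj]
            group
        · push Not at hall
          obtain ⟨w, hw, hyw⟩ := hall
          obtain ⟨x, hx, hnK⟩ := exists_noncyclic hP hS hcyc hg hy hw hyw
          set K : Subgroup P := sqSub P ⊔ Subgroup.zpowers x with hK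
          have hSK : sqSub P ≤ K := le_sup_left
          have hxK : x ∈ K := (le_sup_right : Subgroup.zpowers x ≤ K) (Subgroup.mem_zpowers x)
          have hnorm : K.Normal := normal_of_sqSub_le K hSK
          have heven : ∀ z : P, ∀ i : ℤ, z ^ (2 * i) ∈ sqSub P := by
            intro z i
            rw [zpow_mul]
            apply Subgroup.zpow_mem
            rw [zpow_ofNat, pow_two]
            exact sq_mem z
          have hind : ∀ z : P, ∀ k ∈ sqSub P ⊔ Subgroup.zpowers z, k ∈ sqSub P ∨
              z⁻¹ * k ∈ sqSub P := by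
            intro z k hk
            rw [Subgroup.mem_sup_of_normal_left] at hk
            obtain ⟨s, hs, t, ht, rfl⟩ := hk
            obtain ⟨i, hi⟩ := ht
            have hi' : z ^ i = t := hi
            rcases Int.even_or_odd i with ⟨j, hj⟩ | ⟨j, hj⟩
            · left
              apply Subgroup.mul_mem _ hs
              rw [← hi', hj, ← two_mul]
              exact heven z j
            · right
              have e : z⁻¹ * (s * t) = (z⁻¹ * s * z⁻¹⁻¹) * (z ^ (2 * j)) := by
                rw [← hi', hj, zpow_add, zpow_one]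
                have : z ^ (2 * j) * z = z * z ^ (2 * j) := by
                  rw [← zpow_add_one, ← zpow_one_add, add_comm]
                rw [this]
                group
              rw [e]
              exact Subgroup.mul_mem _ (Subgroup.Normal.conj_mem inferInstance _ hs _) (heven z j)
          have hgS : g ∉ sqSub P := by
            intro h
            rw [← hg] at h
            exact hg1 (eq_one_of_mem_sq hP h)
          have hrel : ∀ z : P, z ∉ sqSub P →
              (sqSub P).relIndex (sqSub P ⊔ Subgroup.zpowers z) = 2 := by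
            intro z hz
            rw [Subgroup.relIndex_eq_two_iff_exists_notMem_and']
            refine ⟨z⁻¹, ?_, ?_, ?_⟩
            · exact Subgroup.inv_mem _ ((le_sup_right : Subgroup.zpowers z ≤ _)
                (Subgroup.mem_zpowers z))
            · intro h
              exact hz (by simpa using h)
            · intro k hk
              exact (hind z k hk).symm
          have hidx : K.index = (Subgroup.zpowers g).index := by
            have h1 := Subgroup.relIndex_mul_index hSK
            have h2 := Subgroup.relIndex_mul_index hSC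
            have h3 := hrel x hx
            have h4 := hrel g hgS
            rw [sup_eq_right.2 hSC] at h4
            rw [h3] at h1
            rw [h4] at h2
            omega
          have hge : 3 ≤ Nat.card (P ⧸ Subgroup.zpowers g) := by
            apply three_le_card (a := ((1 : P) : P ⧸ Subgroup.zpowers g)) (b := (y : P ⧸ Subgroup.zpowers g))
              (c := (w : P ⧸ Subgroup.zpowers g))
            · intro h
              rw [QuotientGroup.eq] at h
              exact hy (by simpa using h)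
            · intro h
              rw [QuotientGroup.eq] at h
              exact hw (by simpa using h)
            · intro h
              rw [QuotientGroup.eq] at h
              exact hyw h
          have hge' : 3 ≤ Nat.card (P ⧸ K) := by
            have : Nat.card (P ⧸ K) = Nat.card (P ⧸ Subgroup.zpowers g) := hidx
            omega
          have hlt : Nat.card K < n := by
            have h1 := Subgroup.card_eq_card_quotient_mul_card_subgroup K
            have h2 : 0 < Nat.card K := Nat.card_pos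
            rw [← hn]
            nlinarith
          exact index_two_extension K (sqSub P) (sqSub_nongen hP) x hxK hx (hind x)
            (ih _ hlt K rfl (hP.to_subgroup K) hnK)
            (elementary_good _ (quot_sq K hSK) hge')
      · have hlt : Nat.card (sqSub P) < n := by
          have h1 := Subgroup.card_eq_card_quotient_mul_card_subgroup (sqSub P)
          have h2 : 0 < Nat.card (sqSub P) := Nat.card_pos
          rw [← hn]
          nlinarith
        exact frattini_extension (sqSub P) (sqSub_nongen hP)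
          (ih _ hlt (sqSub P) rfl (hP.to_subgroup _) hcyc) hgoodS

end MainTwo


section SolvableExtension

/-- A group of exponent two with at least three elements has an endomorphism `θ` such that both
`θ` and `n ↦ n⁻¹ * θ n` are injective. -/
theorem exists_theta (E : Type u) [Group E] [Finite E] (h2 : ∀ x : E, x * x = 1)
    (hc : 3 ≤ Nat.card E) :
    ∃ θ : E →* E, Function.Injective θ ∧ Function.Injective (fun n : E => n⁻¹ * θ n) := by
  classical
  have hinv : ∀ x : E, x⁻¹ = x := fun x => (eq_inv_of_mul_eq_one_left (h2 x)).symm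
  have hcomm : ∀ a b : E, a * b = b * a := by
    intro a b
    have := hinv (a * b)
    rw [mul_inv_rev, hinv, hinv] at this
    exact this.symm
  let _ : CommGroup E := { (inferInstance : Group E) with mul_comm := hcomm }
  let _ : Module (ZMod 2) (Additive E) := AddCommGroup.zmodModule (by
    intro x
    rw [two_nsmul]
    exact h2 x.toMul)
  have : Finite (Additive E) := inferInstanceAs (Finite E)
  have : Module.Finite (ZMod 2) (Additive E) := Module.Finite.of_finite
  set d := Module.finrank (ZMod 2) (Additive E) with hd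
  have hcard : Nat.card (Additive E) = 2 ^ d := by
    have := Module.natCard_eq_pow_finrank (K := ZMod 2) (V := Additive E)
    rw [this]
    simp [hd]
  have hcard' : Nat.card E = 2 ^ d := hcard
  have hd0 : d ≠ 0 := by
    intro h
    rw [h] at hcard'
    omega
  have hfr : Module.finrank (ZMod 2) (Additive E) = Module.finrank (ZMod 2) (GaloisField 2 d) := by
    rw [GaloisField.finrank 2 hd0]
  have : Finite (GaloisField 2 d) := Nat.finite_of_card_ne_zero (by
    rw [GaloisField.card 2 d hd0]
    positivity)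
  let e : Additive E ≃ₗ[ZMod 2] GaloisField 2 d := LinearEquiv.ofFinrankEq _ _ hfr
  -- an element different from 0 and 1
  obtain ⟨w, hw0, hw1⟩ : ∃ w : GaloisField 2 d, w ≠ 0 ∧ w ≠ 1 := by
    by_contra hcon
    push Not at hcon
    have : Fintype (GaloisField 2 d) := Fintype.ofFinite _
    have hsub : (Finset.univ : Finset (GaloisField 2 d)) ⊆ {0, 1} := by
      intro x _
      by_cases hx : x = 0
      · simp [hx]
      · simp [hcon x hx]
    have h1 := Finset.card_le_card hsub
    rw [Finset.card_univ] at h1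
    have h3 := h1.trans Finset.card_le_two
    rw [← Nat.card_eq_fintype_card, GaloisField.card 2 d hd0, ← hcard'] at h3
    omega
  let θ : E →* E :=
    { toFun := fun x => (e.symm (w * e (Additive.ofMul x))).toMul
      map_one' := by simp
      map_mul' := by
        intro x y
        rw [ofMul_mul, map_add, mul_add, map_add]
        rfl }
  have hθ : ∀ x, e (Additive.ofMul (θ x)) = w * e (Additive.ofMul x) := by
    intro x
    show e (Additive.ofMul ((e.symm (w * e (Additive.ofMul x))).toMul)) = _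
    rw [ofMul_toMul, LinearEquiv.apply_symm_apply]
  refine ⟨θ, ?_, ?_⟩
  · intro a b hab
    have h1 := hθ a
    rw [hab, hθ b] at h1
    have h4 := mul_left_cancel₀ hw0 h1
    exact (Additive.ofMul.injective (e.injective h4)).symm
  · intro a b hab
    simp only at hab
    have h1 := congrArg (fun x => e (Additive.ofMul x)) hab
    simp only [ofMul_mul, ofMul_inv, map_add, map_neg, hθ] at h1
    have h3 : (w - 1) * (e (Additive.ofMul a) - e (Additive.ofMul b)) = 0 := by
      linear_combination h1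
    rcases mul_eq_zero.1 h3 with h | h
    · exact absurd (sub_eq_zero.1 h) hw1
    · exact Additive.ofMul.injective (e.injective (sub_eq_zero.1 h))

theorem solvable_extension (n : ℕ) : ∀ (G : Type u) [Group G] [Finite G] (K : Subgroup G)
    [K.Normal], Nat.card K = n → Group.IsSolvable K →
    (∀ L₁ L₂ : Subgroup G, L₁.Normal → L₂.Normal → L₁ ≤ L₂ → L₂ ≤ K → L₁.relIndex L₂ ≠ 2) →
    IsGood (G ⧸ K) → IsGood G := by
  induction n using Nat.strong_induction_on with
  | _ n ih =>
    intro G _ _ K _ hn hsolv hchief hgood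
    by_cases hK : K = ⊥
    · subst hK
      exact hgood.congr QuotientGroup.quotientBot
    · -- a minimal normal subgroup inside K
      have hwf : WellFounded ((· < ·) : Subgroup G → Subgroup G → Prop) := wellFounded_lt
      obtain ⟨N, ⟨hNn, hNK, hNb⟩, hNmin⟩ :=
        hwf.has_min {N : Subgroup G | N.Normal ∧ N ≤ K ∧ N ≠ ⊥} ⟨K, inferInstance, le_rfl, hK⟩
      have := hNn
      have hmin : ∀ L : Subgroup G, L ≤ N → L.Normal → L = ⊥ ∨ L = N := by
        intro L hL hLn
        by_contra hcon
        push Not at hcon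
        exact hNmin L ⟨hLn, hL.trans hNK, hcon.1⟩ (lt_of_le_of_ne hL hcon.2)
      have hNs : Group.IsSolvable N :=
        Group.isSolvable_of_isSolvable_injective (f := Subgroup.inclusion hNK)
          (Subgroup.inclusion_injective hNK)
      have hcommbot : ⁅N, N⁆ = ⊥ := by
        rcases hmin ⁅N, N⁆ (Subgroup.commutator_le_left N N) inferInstance with h | h
        · exact h
        · exfalso
          have : Nontrivial N := (Subgroup.nontrivial_iff_ne_bot N).2 hNb
          have h1 := Group.IsSolvable.commutator_lt_top_of_nontrivial N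
          apply h1.ne
          rw [← Subgroup.map_subtype_commutator] at h
          apply Subgroup.map_injective N.subtype_injective
          rw [h, ← MonoidHom.range_eq_map, Subgroup.range_subtype]
      have hcomm : ∀ a b : N, a * b = b * a := by
        intro a b
        have h2 := Subgroup.commutator_eq_bot_iff_le_centralizer.1 hcommbot
        have h3 := Subgroup.mem_centralizer_iff.1 (h2 a.2) b b.2
        exact Subtype.ext h3.symm
      have hNcard : 1 < Nat.card N := by
        have : Nontrivial N := (Subgroup.nontrivial_iff_ne_bot N).2 hNb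
        exact Finite.one_lt_card
      have hNcard2 : Nat.card N ≠ 2 := by
        have := hchief ⊥ N inferInstance inferInstance bot_le hNK
        rwa [Subgroup.relIndex_bot_left] at this
      -- the endomorphism
      have hθ : ∃ θ : N →* N, Function.Injective θ ∧ Function.Injective (fun n : N => n⁻¹ * θ n) := by
        -- the subgroup of squares
        have hRn : ((sqHom N hcomm).range.map N.subtype).Normal := by
          constructor
          rintro _ ⟨_, ⟨m, rfl⟩, rfl⟩ g
          refine ⟨sqHom N hcomm ⟨g * m * g⁻¹, Subgroup.Normal.conj_mem inferInstance _ m.2 g⟩,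
            ⟨_, rfl⟩, ?_⟩
          simp only [sqHom, MonoidHom.coe_mk, OneHom.coe_mk, Subgroup.coe_subtype, Subgroup.coe_mul]
          group
        have hRle : (sqHom N hcomm).range.map N.subtype ≤ N := by
          rintro _ ⟨m, _, rfl⟩
          exact m.2
        rcases hmin _ hRle hRn with h | h
        · apply exists_theta
          · intro x
            have h1 : ((x * x : N) : G) ∈ (sqHom N hcomm).range.map N.subtype :=
              ⟨x * x, ⟨x, rfl⟩, rfl⟩
            rw [h, Subgroup.mem_bot] at h1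
            exact Subtype.ext h1
          · omega
        · refine ⟨sqHom N hcomm, ?_, ?_⟩
          · apply (Finite.injective_iff_surjective).2
            intro y
            have h1 : (y : G) ∈ (sqHom N hcomm).range.map N.subtype := by rw [h]; exact y.2
            obtain ⟨z, ⟨m, rfl⟩, hz⟩ := h1
            exact ⟨m, Subtype.ext hz⟩
          · intro a b hab
            simpa [sqHom] using hab
      obtain ⟨θ, hθ1, hθ2⟩ := hθ
      apply good_extension N hcomm hNb θ hθ1 hθ2 (fun L h1 h2 _ => hmin L h1 h2)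
      -- the quotient
      have hcard : Nat.card (K.map (QuotientGroup.mk' N)) * Nat.card N = Nat.card K := by
        have h1 := Subgroup.card_eq_card_quotient_mul_card_subgroup
          ((QuotientGroup.mk' N).subgroupMap K).ker
        have h2 := Nat.card_congr (QuotientGroup.quotientKerEquivOfSurjective
          ((QuotientGroup.mk' N).subgroupMap K)
          ((QuotientGroup.mk' N).subgroupMap_surjective K)).toEquiv
        rw [h1, h2]
        congr 1
        apply Nat.card_congr
        refine ⟨fun x => ⟨⟨x.1, hNK x.2⟩, ?_⟩, fun x => ⟨x.1.1, ?_⟩, ?_, ?_⟩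
        · rw [MonoidHom.mem_ker]
          apply Subtype.ext
          simp
        · have := x.2
          rw [MonoidHom.mem_ker] at this
          have := congrArg Subtype.val this
          simpa using this
        · intro x; rfl
        · intro x; rfl
      have : (K.map (QuotientGroup.mk' N)).Normal := inferInstance
      have hpos : 0 < Nat.card (K.map (QuotientGroup.mk' N)) := Nat.card_pos
      have hlt : Nat.card (K.map (QuotientGroup.mk' N)) < n := by
        rw [← hn, ← hcard]
        nlinarith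
      refine ih _ hlt (G ⧸ N) (K.map (QuotientGroup.mk' N)) rfl ?_ ?_ ?_
      · exact Group.isSolvable_of_surjective ((QuotientGroup.mk' N).subgroupMap_surjective K)
      · intro L₁ L₂ h1 h2 h12 h2K
        have hle : L₂.comap (QuotientGroup.mk' N) ≤ K := by
          intro g hg
          obtain ⟨k, hk, hkg⟩ := h2K hg
          have hkg' : (k : G ⧸ N) = (g : G ⧸ N) := hkg
          have h3 : k⁻¹ * g ∈ N := by rwa [QuotientGroup.eq] at hkg'
          have h4 : g = k * (k⁻¹ * g) := by group
          rw [h4]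
          exact K.mul_mem hk (hNK h3)
        have h3 := hchief (L₁.comap (QuotientGroup.mk' N)) (L₂.comap (QuotientGroup.mk' N))
          (h1.comap _) (h2.comap _) (Subgroup.comap_mono h12) hle
        rwa [Subgroup.relIndex_comap, Subgroup.map_comap_eq_self_of_surjective
          (QuotientGroup.mk'_surjective N)] at h3
      · exact hgood.congr (QuotientGroup.quotientQuotientEquivQuotient N K hNK).symm

end SolvableExtension


section Necessity

open Finset

/-- The product of all elements of a finite commutative group with a unique involution. -/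
theorem prod_eq_involution {A : Type u} [CommGroup A] [Fintype A] [DecidableEq A] (z : A)
    (hz1 : z ≠ 1) (hz2 : z * z = 1) (hz : ∀ a : A, a * a = 1 → a = 1 ∨ a = z) :
    ∏ a : A, a = z := by
  rw [← Finset.mul_prod_erase Finset.univ (fun a => a) (Finset.mem_univ z)]
  have : ∏ a ∈ Finset.univ.erase z, a = 1 := by
    apply Finset.prod_involution (fun a _ => a⁻¹)
    · intro a _
      exact mul_inv_cancel a
    · intro a ha ha1 h
      have h1 : a * a = 1 := by
        calc a * a = a * a⁻¹ := by rw [h]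
          _ = 1 := mul_inv_cancel a
      rcases hz a h1 with h2 | h2
      · exact ha1 h2
      · exact (Finset.ne_of_mem_erase ha) h2
    · intro a _
      exact inv_inv a
    · intro a ha
      apply Finset.mem_erase.2
      refine ⟨?_, Finset.mem_univ _⟩
      intro h
      have h1 : a = z := by
        calc a = (a⁻¹)⁻¹ := (inv_inv a).symm
          _ = z⁻¹ := by rw [h]
          _ = z := (eq_inv_of_mul_eq_one_left hz2).symm
      exact (Finset.ne_of_mem_erase ha) h1
  rw [this, mul_one]

/-- Products along the fibres of an orbit map. -/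
theorem prod_orbit {G : Type u} [Group G] [Fintype G] {Q : Type u} [Fintype Q] [DecidableEq Q]
    [MulAction G Q] (x0 : Q) (htrans : ∀ y : Q, ∃ g : G, g • x0 = y) {A : Type u} [CommGroup A]
    (φ : Q → A) : ∏ g : G, φ (g • x0) = (∏ y : Q, φ y) ^ #{g : G | g • x0 = x0} := by
  rw [Finset.prod_comp φ (fun g : G => g • x0)]
  have himg : Finset.univ.image (fun g : G => g • x0) = Finset.univ := by
    ext y
    simpa using htrans y
  rw [himg, ← Finset.prod_pow]
  apply Finset.prod_congr rfl
  intro y _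
  congr 1
  obtain ⟨k, hk⟩ := htrans y
  apply Finset.card_bij' (fun g _ => k⁻¹ * g) (fun g _ => k * g)
  · intro g hg
    simp only [Finset.mem_filter, Finset.mem_univ, true_and] at hg ⊢
    rw [mul_smul, hg, ← hk, inv_smul_smul]
  · intro g hg
    simp only [Finset.mem_filter, Finset.mem_univ, true_and] at hg ⊢
    rw [mul_smul, hg, hk]
  · intro g _
    group
  · intro g _
    group

theorem no_action {G : Type u} [Group G] [Finite G] {Q : Type u} (op : Q → Q → Q)
    (hop : IsQuasigroup op) [MulAction G Q] (hact : ∀ (g : G) (x y : Q), g • op x y = op (g • x) (g • y))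
    (x0 : Q) (htrans : ∀ y : Q, ∃ g : G, g • x0 = y)
    {A : Type u} [CommGroup A] [Finite A] (π : G →* A) (hπ : Function.Surjective π)
    (hker : Odd (Nat.card π.ker)) (hstab : ∀ g : G, g • x0 = x0 → π g = 1)
    (z : A) (hz1 : z ≠ 1) (hz2 : z * z = 1) (hz : ∀ a : A, a * a = 1 → a = 1 ∨ a = z) : False := by
  classical
  have : Fintype G := Fintype.ofFinite G
  have : Fintype A := Fintype.ofFinite A
  have : Finite Q := Finite.of_surjective (fun g : G => g • x0) htrans
  have : Fintype Q := Fintype.ofFinite Q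
  choose r hr using htrans
  let τ : Q → A := fun y => π (r y)
  have hτ : ∀ g : G, τ (g • x0) = π g := by
    intro g
    have h1 : (g⁻¹ * r (g • x0)) • x0 = x0 := by
      rw [mul_smul, hr, inv_smul_smul]
    have h2 := hstab _ h1
    rw [map_mul, map_inv, inv_mul_eq_one] at h2
    exact h2.symm
  have hτ' : ∀ (g : G) (y : Q), τ (g • y) = π g * τ y := by
    intro g y
    conv_lhs => rw [← hr y, ← mul_smul, hτ, map_mul]
  have hL : Function.Bijective (fun y => op x0 y) := by
    rw [Function.bijective_iff_existsUnique]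
    exact fun b => hop.1 x0 b
  have hR : Function.Bijective (fun y => op y x0) := by
    rw [Function.bijective_iff_existsUnique]
    exact fun b => hop.2 x0 b
  set N : ℕ := #{g : G | g • x0 = x0} with hN
  have hPi : ∏ g : G, π g = (∏ y : Q, τ y) ^ N := by
    have := prod_orbit (G := G) x0 (fun y => ⟨r y, hr y⟩) τ
    simp only [hτ] at this
    exact this
  have h1 : ∏ g : G, τ (op x0 (g • x0)) = ∏ g : G, π g := by
    rw [prod_orbit (G := G) x0 (fun y => ⟨r y, hr y⟩) (fun y => τ (op x0 y)), hPi]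
    congr 1
    exact hL.prod_comp τ
  have h2 : ∏ g : G, τ (op (g • x0) x0) = ∏ g : G, π g := by
    rw [prod_orbit (G := G) x0 (fun y => ⟨r y, hr y⟩) (fun y => τ (op y x0)), hPi]
    congr 1
    exact hR.prod_comp τ
  have h3 : ∏ g : G, τ (op (g • x0) x0) = (∏ g : G, π g) * ∏ g : G, τ (op x0 (g • x0)) := by
    have : ∀ g : G, τ (op (g • x0) x0) = π g * τ (op x0 (g⁻¹ • x0)) := by
      intro g
      rw [← hτ', hact, smul_inv_smul]
    simp only [this]
    rw [Finset.prod_mul_distrib]
    congr 1
    exact Equiv.prod_comp (Equiv.inv G) (fun g : G => τ (op x0 (g • x0)))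
  have h4 : ∏ g : G, π g = 1 := by
    rw [h1, h2] at h3
    have := mul_eq_left (a := ∏ g : G, π g) (b := ∏ g : G, π g)
    exact this.1 h3.symm
  have h5 : ∏ g : G, π g = (∏ a : A, a) ^ (Nat.card π.ker) := by
    let _ : MulAction G A := MulAction.compHom A π
    have hsm : ∀ (g : G) (a : A), g • a = π g * a := fun g a => rfl
    have := prod_orbit (G := G) (1 : A) (fun y => by
      obtain ⟨g, hg⟩ := hπ y
      exact ⟨g, by rw [hsm, mul_one, hg]⟩) (fun a : A => a)
    simp only [hsm, mul_one] at this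
    rw [this]
    congr 1
    rw [Nat.card_eq_fintype_card, Fintype.card_subtype]
    apply Finset.card_bij (fun g _ => g)
    · intro g hg
      simpa [MonoidHom.mem_ker] using hg
    · intro a _ b _ h
      exact h
    · intro g hg
      exact ⟨g, by simpa [MonoidHom.mem_ker] using hg, rfl⟩
  rw [h4, prod_eq_involution z hz1 hz2 hz] at h5
  obtain ⟨k, hk⟩ := hker
  rw [hk, pow_succ, pow_mul, pow_two, hz2, one_pow, one_mul] at h5
  exact hz1 h5.symm

end Necessity


section Sylow

theorem unique_involution {A : Type u} [Group A] [Finite A] (hc : IsCyclic A)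
    (h2 : 2 ∣ Nat.card A) :
    ∃ z : A, z ≠ 1 ∧ z * z = 1 ∧ ∀ a : A, a * a = 1 → a = 1 ∨ a = z := by
  classical
  have : Fintype A := Fintype.ofFinite A
  have : Fact (Nat.Prime 2) := ⟨Nat.prime_two⟩
  obtain ⟨z, hz⟩ := exists_prime_orderOf_dvd_card' 2 h2
  have hz1 : z ≠ 1 := by
    rintro rfl
    rw [orderOf_one] at hz
    omega
  have hz2 : z * z = 1 := by
    rw [← pow_two, ← hz, pow_orderOf_eq_one]
  refine ⟨z, hz1, hz2, ?_⟩
  intro a ha
  by_contra hcon
  push Not at hcon
  have hle := IsCyclic.card_pow_eq_one_le (α := A) (n := 2) (by norm_num)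
  have h3 : ({1, z, a} : Finset A) ⊆ Finset.univ.filter (fun a : A => a ^ 2 = 1) := by
    intro x hx
    rw [Finset.mem_filter]
    refine ⟨Finset.mem_univ _, ?_⟩
    simp only [Finset.mem_insert, Finset.mem_singleton] at hx
    rcases hx with rfl | rfl | rfl
    · simp
    · rw [pow_two]
      exact hz2
    · rw [pow_two]
      exact ha
  have h4 : ({1, z, a} : Finset A).card = 3 := by
    apply Finset.card_eq_three.2
    exact ⟨_, _, _, hz1.symm, fun h => hcon.1 h.symm, fun h => hcon.2 h.symm, rfl⟩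
  have h5 := Finset.card_le_card h3
  rw [h4] at h5
  omega

variable {G : Type u} [Group G] [Finite G]

theorem even_card_sylow (P : Sylow 2 G) (hP : (P : Subgroup G) ≠ ⊥) : 2 ∣ Nat.card P := by
  have : Fact (Nat.Prime 2) := ⟨Nat.prime_two⟩
  obtain ⟨n, hn⟩ := P.2.exists_card_eq
  have hn0 : n ≠ 0 := by
    rintro rfl
    apply hP
    rw [pow_zero] at hn
    exact Subgroup.card_eq_one.1 hn
  rw [hn]
  exact dvd_pow_self 2 hn0

theorem exists_retraction (P : Sylow 2 G) (hP : (P : Subgroup G) ≠ ⊥) (hc : IsCyclic P) :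
    ∃ π : G →* P, Function.Surjective π ∧ Odd (Nat.card π.ker) := by
  have : Fact (Nat.Prime 2) := ⟨Nat.prime_two⟩
  have h2 : 2 ∣ Nat.card G := (even_card_sylow P hP).trans (Subgroup.card_subgroup_dvd_card _)
  have hmin : (Nat.card G).minFac = 2 := by
    rw [Nat.minFac_eq_two_iff]
    exact h2
  have hPc := hc.normalizer_le_centralizer hmin
  refine ⟨MonoidHom.transferSylow P hPc, ?_, ?_⟩
  · have h1 := MonoidHom.ker_transferSylow_isComplement' P hPc
    have h3 := h1.card_mul_card
    have h4 := Subgroup.card_eq_card_quotient_mul_card_subgroup (MonoidHom.transferSylow P hPc).ker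
    have h5 := Nat.card_congr
      (QuotientGroup.quotientKerEquivRange (MonoidHom.transferSylow P hPc)).toEquiv
    have hpos : 0 < Nat.card (MonoidHom.transferSylow P hPc).ker := Nat.card_pos
    have h6 : Nat.card (MonoidHom.transferSylow P hPc).range = Nat.card P := by
      rw [← h5]
      have : Nat.card (G ⧸ (MonoidHom.transferSylow P hPc).ker) *
          Nat.card (MonoidHom.transferSylow P hPc).ker =
          Nat.card P * Nat.card (MonoidHom.transferSylow P hPc).ker := by
        rw [← h4, ← h3, mul_comm]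
      exact Nat.eq_of_mul_eq_mul_right hpos this
    rw [← MonoidHom.range_eq_top]
    exact Subgroup.eq_top_of_card_eq _ h6
  · have := MonoidHom.not_dvd_card_ker_transferSylow P hPc
    rwa [← Nat.not_even_iff_odd, even_iff_two_dvd]

theorem no_transitive_core (P : Sylow 2 G) (hP : (P : Subgroup G) ≠ ⊥) (hc : IsCyclic P)
    {π : G →* P} (hπ : Function.Surjective π) (hker : Odd (Nat.card π.ker))
    {Q : Type u} (op : Q → Q → Q) (hop : IsQuasigroup op) (e : G ≃* AutQ op) (x0 : Q)
    (htrans : ∀ x y : Q, ∃ φ ∈ AutQ op, φ x = y)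
    (hstab : ∀ g : G, (e g : Equiv.Perm Q) x0 = x0 → π g = 1) : False := by
  let _ : MulAction G Q := MulAction.compHom Q ((AutQ op).subtype.comp e.toMonoidHom)
  let _ : CommGroup P := { (inferInstance : Group P) with
    mul_comm := by
      intro a b
      obtain ⟨g, hg⟩ := hc.exists_generator
      obtain ⟨i, hi⟩ := hg a
      obtain ⟨j, hj⟩ := hg b
      rw [← hi, ← hj]
      show g ^ i * g ^ j = g ^ j * g ^ i
      rw [← zpow_add, ← zpow_add, add_comm] }
  obtain ⟨z, hz1, hz2, hz⟩ := unique_involution hc (even_card_sylow P hP)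
  refine no_action (G := G) op hop ?_ x0 ?_ (A := P) π hπ hker hstab z hz1 hz2 hz
  · intro g x y
    exact (e g).2 x y
  · intro y
    obtain ⟨φ, hφ, hφy⟩ := htrans x0 y
    obtain ⟨g, hg⟩ := e.surjective ⟨φ, hφ⟩
    refine ⟨g, ?_⟩
    show (e g : Equiv.Perm Q) x0 = y
    rw [hg]
    exact hφy

theorem not_regular (P : Sylow 2 G) (hP : (P : Subgroup G) ≠ ⊥) (hc : IsCyclic P) :
    ¬ AdmitsRegular G := by
  rintro ⟨Q, op, ⟨x0⟩, hop, ⟨e⟩, htrans, hreg⟩
  obtain ⟨π, hπ, hker⟩ := exists_retraction P hP hc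
  apply no_transitive_core P hP hc hπ hker op hop e x0 htrans
  intro g hg
  have h1 : (e g : Equiv.Perm Q) = 1 := hreg _ (e g).2 x0 hg
  have h2 : e g = 1 := Subtype.ext h1
  have h3 : g = 1 := by
    rw [← map_one e] at h2
    exact e.injective h2
  rw [h3, map_one]

theorem odd_order_one {K : Type u} [Group K] [Finite K] (hodd : Odd (Nat.card K)) {k : K}
    (hk : k * k = 1) : k = 1 := by
  have h1 : orderOf k ∣ 2 := by
    rw [orderOf_dvd_iff_pow_eq_one, pow_two]
    exact hk
  have h2 : orderOf k ∣ Nat.card K := orderOf_dvd_natCard k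
  have h3 : orderOf k ∣ 1 := by
    have h4 : (Nat.card K).Coprime 2 := by
      rw [Nat.coprime_comm]
      exact (Nat.coprime_two_left).2 hodd
    have := Nat.dvd_gcd h2 h1
    rwa [h4] at this
  rw [← orderOf_eq_one_iff]
  exact Nat.dvd_one.1 h3

theorem not_transitive (P : Sylow 2 G) (hP : (P : Subgroup G) ≠ ⊥) (hc : IsCyclic P) (c : G)
    (hcc : c ∈ Subgroup.center G) (hc1 : c ≠ 1) (hc2 : c * c = 1) :
    ¬ AdmitsTransitive G := by
  rintro ⟨Q, op, ⟨x0⟩, hop, ⟨e⟩, htrans⟩
  obtain ⟨π, hπ, hker⟩ := exists_retraction P hP hc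
  obtain ⟨z, hz1, hz2, hz⟩ := unique_involution hc (even_card_sylow P hP)
  apply no_transitive_core P hP hc hπ hker op hop e x0 htrans
  intro g hg
  by_contra hπg
  have hfix : ∀ n : ℕ, (e (g ^ n) : Equiv.Perm Q) x0 = x0 := by
    intro n
    induction n with
    | zero => simp
    | succ n ih =>
      rw [pow_succ, map_mul]
      show (e (g ^ n) : Equiv.Perm Q) ((e g : Equiv.Perm Q) x0) = x0
      rw [hg, ih]
  -- an involution among the powers of g
  have hkerone : ∀ k : G, π k = 1 → k * k = 1 → k = 1 := by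
    intro k hk hkk
    have := odd_order_one hker (k := (⟨k, hk⟩ : π.ker)) (Subtype.ext hkk)
    exact congrArg Subtype.val this
  have hinv : ∃ n : ℕ, g ^ n ≠ 1 ∧ g ^ n * g ^ n = 1 := by
    have heven : 2 ∣ orderOf g := by
      have h1 : orderOf (π g) ∣ orderOf g := orderOf_map_dvd π g
      obtain ⟨k, hk⟩ := IsPGroup.iff_orderOf.1 P.2 (π g)
      have hk0 : k ≠ 0 := by
        rintro rfl
        rw [pow_zero, orderOf_eq_one_iff] at hk
        exact hπg hk
      exact ((dvd_pow_self 2 hk0).trans (hk ▸ dvd_rfl)).trans h1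
    obtain ⟨m, hm⟩ := heven
    have hpos : 0 < orderOf g := orderOf_pos g
    refine ⟨m, ?_, ?_⟩
    · intro h
      have := orderOf_dvd_of_pow_eq_one h
      have := Nat.le_of_dvd (by omega) this
      omega
    · rw [← pow_add, ← two_mul, ← hm, pow_orderOf_eq_one]
  obtain ⟨n, hn1, hn2⟩ := hinv
  have hzc : π c = z := by
    rcases hz (π c) (by rw [← map_mul, hc2, map_one]) with h | h
    · exact absurd (hkerone c h hc2) hc1
    · exact h
  have hzn : π (g ^ n) = z := by
    rcases hz (π (g ^ n)) (by rw [← map_mul, hn2, map_one]) with h | h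
    · exact absurd (hkerone _ h hn2) hn1
    · exact h
  have hcomm : ∀ x : G, c * x = x * c := by
    intro x
    exact (Subgroup.mem_center_iff.1 hcc x).symm
  have heq : g ^ n = c := by
    have h1 : g ^ n * c = 1 := by
      apply hkerone
      · rw [map_mul, hzc, hzn, hz2]
      · calc g ^ n * c * (g ^ n * c) = g ^ n * (c * g ^ n) * c := by group
          _ = g ^ n * (g ^ n * c) * c := by rw [hcomm]
          _ = (g ^ n * g ^ n) * (c * c) := by group
          _ = 1 := by rw [hn2, hc2, one_mul]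
    calc g ^ n = g ^ n * (c * c) := by rw [hc2, mul_one]
      _ = (g ^ n * c) * c := by group
      _ = c := by rw [h1, one_mul]
  have hcfix : (e c : Equiv.Perm Q) x0 = x0 := by
    rw [← heq]
    exact hfix n
  apply hc1
  have h1 : e c = 1 := by
    apply Subtype.ext
    ext y
    obtain ⟨φ, hφ, hφy⟩ := htrans x0 y
    obtain ⟨k, hk⟩ := e.surjective ⟨φ, hφ⟩
    have h2 : (e k : Equiv.Perm Q) x0 = y := by
      rw [hk]
      exact hφy
    have h3 : e c * e k = e k * e c := by
      rw [← map_mul, ← map_mul, hcomm]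
    have h4 := congrArg (fun φ : AutQ op => (φ : Equiv.Perm Q) x0) h3
    simp only [Subgroup.coe_mul, Equiv.Perm.mul_apply, hcfix, h2] at h4
    rw [h4]
    rfl
  rw [← map_one e] at h1
  exact e.injective h1

end Sylow


/-- Every Sylow `2`-subgroup of `G` is trivial or not cyclic. -/
def SylowCondition (G : Type u) [Group G] : Prop :=
  ∀ P : Sylow 2 G, (P : Subgroup G) = ⊥ ∨ ¬ IsCyclic P

theorem regular_transitive {G : Type u} [Group G] (h : AdmitsRegular G) : AdmitsTransitive G := by
  obtain ⟨Q, op, hQ, hop, he, ht, _⟩ := h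
  exact ⟨Q, op, hQ, hop, he, ht⟩

theorem sylow_of_regular {G : Type u} [Group G] [Finite G] (h : AdmitsRegular G) :
    SylowCondition G := by
  intro P
  by_contra hcon
  push Not at hcon
  exact not_regular P hcon.1 hcon.2 h

theorem sylow_of_transitive {G : Type u} [Group G] [Finite G]
    (hc : Odd (Nat.card G) ∨ ∃ z ∈ Subgroup.center G, orderOf z = 2) (h : AdmitsTransitive G) :
    SylowCondition G := by
  intro P
  by_contra hcon
  push Not at hcon
  rcases hc with hodd | ⟨z, hz, hz2⟩
  · have h1 := even_card_sylow P hcon.1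
    have h2 : 2 ∣ Nat.card G := h1.trans (Subgroup.card_subgroup_dvd_card _)
    rw [← Nat.not_even_iff_odd, even_iff_two_dvd] at hodd
    exact hodd h2
  · refine not_transitive P hcon.1 hcon.2 z hz ?_ ?_ h
    · rintro rfl
      rw [orderOf_one] at hz2
      omega
    · rw [← pow_two, ← hz2, pow_orderOf_eq_one]

theorem quot_of_sylow {G : Type u} [Group G] [Finite G] (K : Subgroup G) [K.Normal]
    (hodd : Odd (Nat.card K)) (hP : IsPGroup 2 (G ⧸ K)) (h : SylowCondition G) :
    K = ⊤ ∨ ¬ IsCyclic (G ⧸ K) := by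
  have : Fact (Nat.Prime 2) := ⟨Nat.prime_two⟩
  by_contra hcon
  push Not at hcon
  obtain ⟨hK, hcyc⟩ := hcon
  obtain ⟨P⟩ := (inferInstance : Nonempty (Sylow 2 G))
  have hinj : Function.Injective ((QuotientGroup.mk' K).comp (P : Subgroup G).subtype) := by
    rw [injective_iff_map_eq_one]
    intro x hx
    have hxK : (x : G) ∈ K := by
      rw [← QuotientGroup.eq_one_iff]
      exact hx
    obtain ⟨k, hk⟩ := IsPGroup.iff_orderOf.1 P.2 x
    have h1 : orderOf (x : G) ∣ Nat.card K := by
      have := orderOf_dvd_natCard (⟨x, hxK⟩ : K)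
      rwa [Subgroup.orderOf_mk] at this
    rw [Subgroup.orderOf_coe, hk] at h1
    have hk0 : k = 0 := by
      by_contra hne
      have h2 : 2 ∣ Nat.card K := (dvd_pow_self 2 hne).trans h1
      rw [← Nat.not_even_iff_odd, even_iff_two_dvd] at hodd
      exact hodd h2
    rw [hk0, pow_zero, orderOf_eq_one_iff] at hk
    exact hk
  have hcP : IsCyclic P := isCyclic_of_injective _ hinj
  rcases h P with h1 | h1
  · have h2 : ¬ 2 ∣ Nat.card G := by
      have := P.not_dvd_index
      rwa [h1, Subgroup.index_bot] at this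
    apply h2
    have h3 : 2 ∣ Nat.card (G ⧸ K) := by
      obtain ⟨n, hn⟩ := IsPGroup.iff_card.1 hP
      rw [hn]
      apply dvd_pow_self
      rintro rfl
      rw [pow_zero] at hn
      exact hK (Subgroup.index_eq_one.1 hn)
    exact h3.trans (Subgroup.card_quotient_dvd_card K)
  · exact h1 hcP

theorem sufficiency {G : Type u} [Group G] [Finite G] (K : Subgroup G) [K.Normal]
    (hsolv : Group.IsSolvable K) (hP : IsPGroup 2 (G ⧸ K))
    (hchief : ∀ L₁ L₂ : Subgroup G, L₁.Normal → L₂.Normal → L₁ ≤ L₂ → L₂ ≤ K →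
      L₁.relIndex L₂ ≠ 2) (h : K = ⊤ ∨ ¬ IsCyclic (G ⧸ K)) : AdmitsRegular G := by
  apply good_admits
  apply solvable_extension _ G K rfl hsolv hchief
  rcases h with h | h
  · have : Subsingleton (G ⧸ K) := by
      rw [h]
      exact QuotientGroup.subsingleton_quotient_top
    exact good_of_subsingleton _
  · exact two_group_good _ (G ⧸ K) rfl hP h

theorem result :
    (∀ (G : Type u) [Group G] [Finite G] (K : Subgroup G) [K.Normal], Group.IsSolvable K →
      IsPGroup 2 (G ⧸ K) →
      (∀ L₁ L₂ : Subgroup G, L₁.Normal → L₂.Normal → L₁ ≤ L₂ → L₂ ≤ K → L₁.relIndex L₂ ≠ 2) →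
      (K = ⊤ ∨ ¬ IsCyclic (G ⧸ K)) → AdmitsRegular G) ∧
    (∀ (G : Type u) [Group G] [Finite G] (K : Subgroup G) [K.Normal], Group.IsSolvable K →
      IsPGroup 2 (G ⧸ K) → Odd (Nat.card K) →
      (AdmitsRegular G ↔ SylowCondition G) ∧
      ((Odd (Nat.card G) ∨ ∃ z ∈ Subgroup.center G, orderOf z = 2) →
        (AdmitsTransitive G ↔ SylowCondition G))) := by
  refine ⟨?_, ?_⟩
  · intro G _ _ K _ h1 h2 h3 h4
    exact sufficiency K h1 h2 h3 h4
  · intro G _ _ K _ h1 h2 h3
    have hsuff : SylowCondition G → AdmitsRegular G := by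
      intro h
      refine sufficiency K h1 h2 ?_ (quot_of_sylow K h3 h2 h)
      intro L₁ L₂ _ _ _ hL2 he
      have h4 : L₁.relIndex L₂ ∣ Nat.card L₂ := Subgroup.relIndex_dvd_card L₁ L₂
      have h5 : Nat.card L₂ ∣ Nat.card K := Subgroup.card_dvd_of_le hL2
      rw [he] at h4
      rw [← Nat.not_even_iff_odd, even_iff_two_dvd] at h3
      exact h3 (h4.trans h5)
    refine ⟨⟨sylow_of_regular, hsuff⟩, ?_⟩
    intro hc
    exact ⟨sylow_of_transitive hc, fun h => regular_transitive (hsuff h)⟩

end Pool.Agent.Results.MP_8306f4_co.TwoNilpotent
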